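import Pool.Agent.helper96.S5.SpecV

set_option autoImplicit false

namespace S5

open PF

theorem PCF_row (hFED : FED_stmt) (hDMW : DMW_stmt) (hDIS : DIS_stmt) (hGDD : GDD_stmt) : PCF_stmt := by
  intro X hX k j hRS hal hj
  have hG := hGDD X hX k
  obtain ⟨u0, hu0⟩ := (hDMW X.B k hG j).1 hRS
  have hfed := hFED X.B k hG j hRS hal
  -- infinitely many different elements
  have hmem : ∀ u, u0 ≤ u → X.B.asg k u = j + 1 → Nat.pair k (X.f u.unpair.2) ∈ X.bk k j \ X.sD := by
    intro u hu ha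
    have hup : Nat.pair u.unpair.1 u.unpair.2 = u := Nat.pair_unpair u
    refine ⟨⟨u.unpair.2, rfl, ⟨u.unpair.1, by rw [hup]; exact ha⟩⟩, ?_⟩
    rintro ⟨k', j', t', he, h⟩
    have h1 := congrArg Nat.unpair he
    rw [Nat.unpair_pair, Nat.unpair_pair] at h1
    obtain ⟨hk, ht⟩ := Prod.ext_iff.1 h1
    simp only at hk ht
    have ht' : u.unpair.2 = t' := hX.fi ht
    subst hk
    subst ht'
    rcases h with ⟨⟨s', hs'⟩, hN⟩ | ⟨s', hs', u', hu', hd⟩
    · have h2 := (hDIS X.B k).1 j j' u.unpair.2 u.unpair.1 s' (by rw [hup]; exact ha) hs'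
      rw [← h2.2] at hN
      exact hj hN
    · have h2 := (hDIS X.B k).1 j j' u.unpair.2 u.unpair.1 s' (by rw [hup]; exact ha) hs'
      rw [← h2.1, hup] at hu'
      rw [← h2.2] at hd
      exact hu0 u' (hu.trans hu') hd
  intro hfin
  -- the set of these u would be finite
  have hU : {u | u0 ≤ u ∧ X.B.asg k u = j + 1}.Finite := by
    refine Set.Finite.of_finite_image (f := fun u => Nat.pair k (X.f u.unpair.2)) (hfin.subset ?_) ?_
    · rintro _ ⟨u, ⟨h1, h2⟩, rfl⟩
      exact hmem u h1 h2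
    · rintro u ⟨-, h2⟩ v ⟨-, h3⟩ he
      have h1 := congrArg Nat.unpair he
      simp only [Nat.unpair_pair] at h1
      have ht : u.unpair.2 = v.unpair.2 := hX.fi (Prod.ext_iff.1 h1).2
      have hup : Nat.pair u.unpair.1 u.unpair.2 = u := Nat.pair_unpair u
      have hvp : Nat.pair v.unpair.1 v.unpair.2 = v := Nat.pair_unpair v
      have h4 := (hDIS X.B k).1 j j u.unpair.2 u.unpair.1 v.unpair.1 (by rw [hup]; exact h2)
        (by rw [ht, hvp]; exact h3)
      rw [← hup, ← hvp, h4.1, ht]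
  obtain ⟨b, hb⟩ := hU.bddAbove
  obtain ⟨u, hu, ha⟩ := hfed (max u0 (b + 1))
  have := hb ⟨(le_max_left _ _).trans hu, ha⟩
  have h5 : b + 1 ≤ u := (le_max_right _ _).trans hu
  omega

end S5
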