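import Pool.Agent.helper96.S5.SpecL

/-!
# MP_0b485e_lc, level 5, Spec M: machines (rows of block M)

The proofs of MC2 can be copied from `Pool.Agent.helper45.TP.MCH` and the rows HLT, MIC, SUP, SIM, DTM, ENJ, CNM
(all proved, statements in `Pool.Agent.helper84.TP.SpecA`, proofs listed in `Pool.Agent.helper84.TP.All`).
-/

set_option autoImplicit false

namespace S5

open PF Relation

noncomputable section

/-- ROW MC2 (medium). Affine machines with two different results.
PROOF. As in `Pool.Agent.helper45.TP.MCH` (copy it; import the modules of the rows MIC SUP SIM DTM ENJ CNM of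
`Pool.Agent.helper84.TP.All`), without HLT: `PartrecToTM2.tr_eval` says `eval (TM2.step tr) (init c [e]) = halt <$> c.eval [e]`,
so for `w ∈ c.eval [e]` the machine reaches `halt w = ⟨none, none, K'.elim (trList w) [] [] []⟩` (`StateTransition.mem_eval`).
`Q` from SUP for `c`, the instructions `insOf ν B q v o`, `q ∈ Q`, `q ≠ halt`. `z0, z1` = the vectors of
`(halt, none, K'.elim (trList [0]) [] [] [])` and of `(halt, none, K'.elim (trList [1]) [] [] [])`; they are different by ENJ
(`trList [0] ≠ trList [1]`), and terminal as in MCH. In `S5.AM` everything is in `ℕ`: all `a j < P j`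
(`5 ν q + dg v < 5 B`; `dg o < 5`; `0 < 1`), so `P n + a = x ≥ 0` with an integer `n` implies `n ≥ 0`; so every integer step from
a natural vector is a natural step (`n.toNat`) and conversely. MIC translates the run of the TM2 machine into micro steps, SIM into
steps of the affine machine. -/
def MC2_stmt : Prop := ∀ c : Turing.ToPartrec.Code, ∃ (A : AM) (z0 z1 : Fin 5 → ℕ) (x0 : ℕ → Fin 5 → ℕ),
  A.Ok z0 z1 ∧ (∀ j, Computable fun e => x0 e j) ∧
  (∀ e, [0] ∈ c.eval [e] → ReflTransGen A.stp (x0 e) z0) ∧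
  ∀ e, [1] ∈ c.eval [e] → ReflTransGen A.stp (x0 e) z1

/-- ROW DIA (short-medium). Two inseparable r.e. sets.
PROOF. `f n = eval (ofNat Nat.Partrec.Code n) n` is partial recursive (`Nat.Partrec.Code.eval_part`); by
`Nat.Partrec'.part_iff₁` and `Turing.ToPartrec.Code.exists_code` there is `c` with `c.eval [n] = pure <$> f n` (as in row
REC of `Pool.Agent.helper22.TP.REC`). If `P` is computable and separates, then `g n = if P n then 1 else 0` is computable, it
has a code with number `e`, `f e = g e`: if `P e` then `f e = 1`, so `[1] ∈ c.eval [e]` and `¬ P e`; if `¬ P e` then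
`[0] ∈ c.eval [e]` and `P e`. -/
def DIA_stmt : Prop := ∃ c : Turing.ToPartrec.Code, ∀ P : ℕ → Prop, ComputablePred P →
  ¬ ((∀ e, [0] ∈ c.eval [e] → P e) ∧ ∀ e, [1] ∈ c.eval [e] → ¬ P e)

/-- ROW WFT (short). All relation symbols are less than `nrl A`, the constants of `grd x` are at most `sm5 x`.
PROOF. `mL i j, mR i j < 7 + 10 m` for `i < m`, `j < 5`; `2 + j < 7`; unfold `thy`, `gru`, `sbd`, `chn`, `grd`. -/
def WFT_stmt : Prop := ∀ (A : AM) (z1 : Fin 5 → ℕ), (∀ h ∈ thy A z1, HOk (nrl A) h) ∧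
  ∀ x : Fin 5 → ℕ, ∀ a ∈ grd x, a.1 < nrl A ∧ a.2.1 ≤ sm5 x ∧ a.2.2 ≤ sm5 x

/-- ROW MGR (short). The atoms are computable.
PROOF. `grd (x0 e)` is `(1, 0, 0) :: ((List.range (sm5 (x0 e))).map .. ++ [(2, 0, x0 e 0), ..., (6, 0, x0 e 4)])`; `sm5` is a sum
of computable functions; `Primrec.list_map`, `Primrec.list_range`, append, cons. -/
def MGR_stmt : Prop := ∀ x0 : ℕ → Fin 5 → ℕ, (∀ j, Computable fun e => x0 e j) →
  (Computable fun e => grd (x0 e)) ∧ Computable fun e => sm5 (x0 e)

/-- ROW MSD (medium). If the run reaches `z1`, there is no model.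
PROOF. Let `X, ρ, c` be a model. By the atoms and totality there is `e : ℕ → X` with `e k = c k` for `k ≤ sm5 x`,
`ρ 0 (e k) (e (k + 1))` for all `k` (recursion with the totality for `k ≥ sm5 x`), `ρ 1 (e 0) (e 0)` and
`ρ (2 + j) (e 0) (e (x j))`. (1) For every pair of rules `gru G P a` of the theory: `ρ G (e (P n + a)) (e n)` by induction on
`n`: the first rule with `v i = e i`; the second rule with `v i = e (P n + a + i)` for `i ≤ P`, `v (P + 1) = e n`,
`v (P + 2) = e (n + 1)`. (2) If `x` reaches `y` in `t` steps, then `ρ (2 + j) (e t) (e (y j))` for all `j < 5`: the rules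
`(sbd i, some (2 + j, 1, 12 + j))` with `v 0 = e t`, `v 1 = e (t + 1)`, `v (2 + j) = e (P n_j + a)`, `v (7 + j) = e n_j`,
`v (12 + j) = e (q n_j + c)`. (3) For `y = z1` the last rule, with `v i = e i` for `i ≤ sm5 z1` and
`v (sm5 z1 + 1) = e t`, has true hypotheses (`z1 j ≤ sm5 z1`) and the conclusion `none`: contradiction. -/
def MSD_stmt : Prop := ∀ (A : AM) (z1 x : Fin 5 → ℕ), ReflTransGen A.stp x z1 →
  ¬ ∃ (X : Type) (ρ : ℕ → X → X → Prop) (c : ℕ → X), Mdl (thy A z1) 0 (grd x) ρ c

/-- ROW MFM (medium). If the run reaches `z0`, there is a finite model.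
PROOF. The run is `x = w 0, w 1, ..., w T = z0`; let `N` be greater than `T`, all `w t j` and all `z1 j`. On `Fin (N + 1)`
put (write `u, v` for the numbers) `ρ 0 u v : v = min (u + 1) N`, `ρ 1 u v : u = 0 ∧ v = 0`,
`ρ (2 + j) u v : u ≤ T ∧ v = w u j` (`j < 5`), `ρ (mL i j) u v : u = min (P v + a) N`, `ρ (mR i j) u v : u = min (q v + c) N`
(`i < m, j < 5`; `mL, mR` are injective and `≥ 7`, parity distinguishes them), `c k = min k N`. Rules `gru G P a` (`P > 0`):
along a chain `v 0, ..., v k` of `ρ 0` we have `v k = min (v 0 + k) N`; the first: `v a = min a N`; the second: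
`v 0 = min (P n + a) N`, `v P = min (v 0 + P) N`, `n' = min (n + 1) N`; if `n < N` this is `min (P n' + a) N`, if `n = N`
both sides are `N` as `P ≥ 1`. Instruction `i`: `v 0 = t ≤ T`, `v (2 + j) = w t j < N` and `= min (P n_j + a) N`, so
`w t j = P n_j + a`; so `A.stp (w t) (q n + c)`; `t = T` is impossible since `w T = z0` is terminal; so `t < T`, and by
determinism `w (t + 1) j = q n_j + c < N`, which is `v (12 + j)`; `v 1 = t + 1`. The last rule: `v (z1 j) = z1 j` (chain from `0`,
`z1 j ≤ N`), so `w t = z1` for `t = v (sm5 z1 + 1) ≤ T`; `z1` is terminal, so `t = T` (there is no step from `w t`), so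
`z1 = z0`, excluded. Totality and the atoms: clear (`x j < N`; for the chain `S (c k, c (k + 1))`). -/
def MFM_stmt : Prop := ∀ (A : AM) (z0 z1 x : Fin 5 → ℕ), A.Ok z0 z1 → ReflTransGen A.stp x z0 →
  ∃ (N : ℕ) (ρ : ℕ → Fin (N + 1) → Fin (N + 1) → Prop) (c : ℕ → Fin (N + 1)),
    Mdl (thy A z1) 0 (grd x) ρ c

/-- ROW FIN (short-medium). The theorem.
PROOF. By NEG it is enough to refute `Dec false`. `c` from DIA, `A, z0, z1, x0` from MC2. RBD for `L = EStar`,
`R = nrl A`, `rules = thy A z1`, `s = 0` gives `q, μ`; SEN with `gr e = grd (x0 e)`, `M e = sm5 (x0 e)` (MGR, WFT) gives `Q, Φ`. Let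
`P` decide the fragment, `P' e := P (Q e, (Φ e).str)`, computable. `P' e` iff
`∃ c', ∃ p, Bd .. (dl (gr e) (M e) c') p` (the formula of RBD at `e = ⊥`). If `[0] ∈ c.eval [e]`: MFM gives a finite
model, CPI (with `KeyP EStar`) gives `c', p`, so `P' e`. If `[1] ∈ c.eval [e]` and `P' e`: SNI gives a model, against MSD. So
`P'` separates, against DIA. -/
def FIN_stmt : Prop := KeyP EStar → ∀ b : Bool, ¬ Dec b

end

end S5
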