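import Pool.Agent.helper96.S5.SpecR

set_option autoImplicit false

namespace S5

open PF

theorem TTN_row (hCNC : CNC_stmt) : TTN_stmt := by
  intro X hX
  have hN : ∀ z, X.TT (pN z) ↔ z ∉ X.N := fun z => (hCNC X 0).2.2.2 z
  refine ⟨?_, hN, ?_, ?_, ?_⟩
  · intro z0
    obtain ⟨j, hj, hjN⟩ := hX.nb z0
    exact ⟨j, hj ▸ Nat.sqrt_le_self j, (hN j).2 hjN⟩
  · intro k z
    rw [(hCNC X k).2.2.2 z, hN z]
  · intro k b j y
    rw [(hCNC X k).2.2.1 b j y]
    exact ((hCNC X 0).2.2.1 b j y).symm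
  · intro b j
    unfold UI
    exact exists_congr fun y => (hCNC X 0).2.2.1 b j y

end S5
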