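import Pool.Agent.helper96.S5.SpecV
import Pool.Agent.helper96.S5.SpecM
import Pool.Agent.helper71.S5.PRNR
import Pool.Agent.helper92.S5.PQX
import Pool.Agent.helper53.S5.PMO
import Pool.Agent.helper53.S5.PNG
import Pool.Agent.helper53.S5.PAO
import Pool.Agent.helper45.S5.PAT
import Pool.Agent.helper53.S5.PLS
import Pool.Agent.helper32.S5.LPX
import Pool.Agent.helper97.S5.AXQ
import Pool.Agent.helper62.S5.RJY
import Pool.Agent.helper62.S5.RKS
import Pool.Agent.helper2.S5.REC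
import Pool.Agent.helper53.S5.RRU
import Pool.Agent.helper53.S5.RBD
import Pool.Agent.helper93.S5.SBX
import Pool.Agent.helper55.S5.CLX
import Pool.Agent.helper53.S5.STC
import Pool.Agent.helper83.S5.SEN
import Pool.Agent.helper17.S5.NEG
import Pool.Agent.helper99.S5.SNI
import Pool.Agent.helper97.S5.CPI
import Pool.Agent.helper1.S5.MC2
import Pool.Agent.helper54.S5.DIA
import Pool.Agent.helper1.S5.WFT
import Pool.Agent.helper1.S5.MGR
import Pool.Agent.helper59.S5.MSD
import Pool.Agent.helper59.S5.MFM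
import Pool.Agent.helper70.S5.FIN
import Pool.Agent.helper8.S5.FAI
import Pool.Agent.helper92.S5.CHS
import Pool.Agent.helper3.S5.CTH
import Pool.Agent.helper17.S5.CPR
import Pool.Agent.helper80.S5.CAS
import Pool.Agent.helper93.S5.DIS
import Pool.Agent.helper72.S5.TKF
import Pool.Agent.helper39.S5.PRX
import Pool.Agent.helper55.S5.RSX
import Pool.Agent.helper24.S5.RSM
import Pool.Agent.helper24.S5.RSU
import Pool.Agent.helper24.S5.VLX
import Pool.Agent.helper39.S5.FED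
import Pool.Agent.helper93.S5.DMW
import Pool.Agent.helper25.S5.RS3
import Pool.Agent.helper93.S5.S3U
import Pool.Agent.helper93.S5.LQI
import Pool.Agent.helper59.S5.LQS
import Pool.Agent.helper59.S5.COH
import Pool.Agent.helper59.S5.LQC
import Pool.Agent.helper93.S5.LQM
import Pool.Agent.helper54.S5.SMB
import Pool.Agent.helper87.S5.MXA
import Pool.Agent.helper41.S5.MXB
import Pool.Agent.helper48.S5.MXC
import Pool.Agent.helper62.S5.MXD
import Pool.Agent.helper62.S5.MXE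
import Pool.Agent.helper99.S5.NCE
import Pool.Agent.helper40.S5.ENU
import Pool.Agent.helper13.S5.CTX
import Pool.Agent.helper80.S5.CNC
import Pool.Agent.helper74.S5.GDD
import Pool.Agent.helper80.S5.CM1
import Pool.Agent.helper29.S5.CM2
import Pool.Agent.helper96.S5.TTN
import Pool.Agent.helper55.S5.TYL
import Pool.Agent.helper85.S5.CAL
import Pool.Agent.helper32.S5.GAM
import Pool.Agent.helper14.S5.CPX
import Pool.Agent.helper83.S5.SRE
import Pool.Agent.helper53.S5.PAX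
import Pool.Agent.helper53.S5.JFN
import Pool.Agent.helper97.S5.JCP
import Pool.Agent.helper13.S5.JSK
import Pool.Agent.helper8.S5.LIV
import Pool.Agent.helper97.S5.GLU
import Pool.Agent.helper41.S5.RPX
import Pool.Agent.helper97.S5.BIT
import Pool.Agent.helper72.S5.LBV
import Pool.Agent.helper40.S5.PXL
import Pool.Agent.helper53.S5.SRJ
import Pool.Agent.helper53.S5.NRT
import Pool.Agent.helper96.S5.PCF
import Pool.Agent.helper53.S5.YFN
import Pool.Agent.helper53.S5.YBK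
import Pool.Agent.helper53.S5.KSP
import Pool.Agent.helper53.S5.KSB
import Pool.Agent.helper39.S5.RSF
import Pool.Agent.helper53.S5.LVL
import Pool.Agent.helper53.S5.KDD
import Pool.Agent.helper1.S5.EPF
import Pool.Agent.helper1.S5.EPB
import Pool.Agent.helper1.S5.KEY

/-!
# Assembly of the rows s5
-/

set_option autoImplicit false

namespace S5

theorem a_PRN : PRN_stmt := PRN_row

theorem a_PQX : PQX_stmt := PQX_row

theorem a_PMO : PMO_stmt := PMO_row a_PRN a_PQX

theorem a_PNG : PNG_stmt := PNG_row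

theorem a_PAO : PAO_stmt := PAO_row

theorem a_PAT : PAT_stmt := PAT_row a_PMO

theorem a_PLS : PLS_stmt := PLS_row a_PAO a_PAT

theorem a_LPX : LPX_stmt := LPX_row

theorem a_AXQ : AXQ_stmt := AXQ_row a_PRN a_PQX a_LPX

theorem a_RJY : RJY_stmt := RJY_row a_PRN a_PQX a_PAT

theorem a_RKS : RKS_stmt := RKS_row a_PMO a_PQX a_PNG a_PAO a_PAT a_RJY

theorem a_REC : REC_stmt := REC_row a_PMO a_PQX a_PNG a_PAO a_PAT a_RJY a_RKS

theorem a_RRU : RRU_stmt := RRU_row a_PMO a_PNG a_PAO a_PAT a_PLS a_AXQ a_REC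

theorem a_RBD : RBD_stmt := RBD_row a_PRN a_PMO a_PQX a_PNG a_PAO a_PAT a_PLS a_AXQ a_REC a_RRU

theorem a_SBX : SBX_stmt := SBX_row

theorem a_CLX : CLX_stmt := CLX_row

theorem a_STC : STC_stmt := STC_row

theorem a_SEN : SEN_stmt := SEN_row a_SBX a_CLX a_STC

theorem a_NEG : NEG_stmt := NEG_row

theorem a_SNI : SNI_stmt := SNI_row

theorem a_CPI : CPI_stmt := CPI_row

theorem a_MC2 : MC2_stmt := MC2_row

theorem a_DIA : DIA_stmt := DIA_row

theorem a_WFT : WFT_stmt := WFT_row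

theorem a_MGR : MGR_stmt := MGR_row

theorem a_MSD : MSD_stmt := MSD_row

theorem a_MFM : MFM_stmt := MFM_row

theorem a_FIN : FIN_stmt := FIN_row a_NEG a_DIA a_MC2 a_RBD a_SEN a_MGR a_WFT a_MFM a_CPI a_SNI a_MSD

theorem a_FAI : FAI_stmt := FAI_row

theorem a_CHS : CHS_stmt := CHS_row

theorem a_CTH : CTH_stmt := CTH_row a_CHS

theorem a_CPR : CPR_stmt := CPR_row a_CTH

theorem a_CAS : CAS_stmt := CAS_row a_CHS a_CPR

theorem a_DIS : DIS_stmt := DIS_row

theorem a_TKF : TKF_stmt := TKF_row a_FAI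

theorem a_PRX : PRX_stmt := PRX_row

theorem a_RSX : RSX_stmt := RSX_row a_TKF a_PRX

theorem a_RSM : RSM_stmt := RSM_row

theorem a_RSU : RSU_stmt := RSU_row a_RSM

theorem a_VLX : VLX_stmt := VLX_row a_RSX a_RSM a_RSU

theorem a_FED : FED_stmt := FED_row a_FAI

theorem a_DMW : DMW_stmt := DMW_row a_DIS

theorem a_RS3 : RS3_stmt := RS3_row a_CPR

theorem a_S3U : S3U_stmt := S3U_row a_RS3

theorem a_LQI : LQI_stmt := LQI_row

theorem a_LQS : LQS_stmt := LQS_row

theorem a_COH : COH_stmt := COH_row a_LQS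

theorem a_LQC : LQC_stmt := LQC_row a_LQS

theorem a_LQM : LQM_stmt := LQM_row

theorem a_SMB : SMB_stmt := SMB_row

theorem a_MXA : MXA_stmt := MXA_row

theorem a_MXB : MXB_stmt := MXB_row a_MXA

theorem a_MXC : MXC_stmt := MXC_row a_MXA

theorem a_MXD : MXD_stmt := MXD_row

theorem a_MXE : MXE_stmt := MXE_row a_MXA a_MXB a_MXC a_MXD

theorem a_NCE : NCE_stmt := NCE_row

theorem a_ENU : ENU_stmt := ENU_row

theorem a_CTX : CTX_stmt := CTX_row a_MXE a_NCE a_ENU a_SMB

theorem a_CNC : CNC_stmt := CNC_row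

theorem a_GDD : GDD_stmt := GDD_row a_CNC

theorem a_CM1 : CM1_stmt := CM1_row

theorem a_CM2 : CM2_stmt := CM2_row a_LQM

theorem a_TTN : TTN_stmt := TTN_row a_CNC

theorem a_TYL : TYL_stmt := TYL_row a_LQS a_TTN

theorem a_CAL : CAL_stmt := CAL_row a_LQC a_LQI a_TTN a_LQS

theorem a_GAM : GAM_stmt := GAM_row a_S3U a_COH a_TTN a_VLX a_GDD a_RSM a_CM1 a_CM2

theorem a_CPX : CPX_stmt := CPX_row a_CM1 a_CM2

theorem a_SRE : SRE_stmt := SRE_row a_CPX a_CAS a_CTH

theorem a_PAX : PAX_stmt := PAX_row a_SRE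

theorem a_JFN : JFN_stmt := JFN_row

theorem a_JCP : JCP_stmt := JCP_row

theorem a_JSK : JSK_stmt := JSK_row

theorem a_LIV : LIV_stmt := LIV_row a_JFN a_JCP

theorem a_GLU : GLU_stmt := GLU_row a_CNC a_DIS

theorem a_RPX : RPX_stmt := RPX_row a_CNC

theorem a_BIT : BIT_stmt := BIT_row a_DIS

theorem a_LBV : LBV_stmt := LBV_row a_CNC a_GDD

theorem a_PXL : PXL_stmt := PXL_row a_GAM

theorem a_SRJ : SRJ_stmt := SRJ_row a_SRE a_LBV a_VLX a_GDD

theorem a_NRT : NRT_stmt := NRT_row a_DMW a_GDD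

theorem a_PCF : PCF_stmt := PCF_row a_FED a_DMW a_DIS a_GDD

theorem a_YFN : YFN_stmt := YFN_row a_SRE a_DIS

theorem a_YBK : YBK_stmt := YBK_row a_SRE a_DIS

theorem a_KSP : KSP_stmt := KSP_row a_YFN a_YBK

theorem a_KSB : KSB_stmt := KSB_row a_YFN a_YBK

theorem a_RSF : RSF_stmt := RSF_row a_RSM a_RSU a_GDD

theorem a_LVL : LVL_stmt := LVL_row a_KSP a_RSX a_CAL a_PCF a_GDD

theorem a_KDD : KDD_stmt := KDD_row a_KSB a_RSF a_NRT a_CAL a_DIS

theorem a_EPF : EPF_stmt := EPF_row a_JSK a_LIV a_GLU a_LVL a_BIT a_TYL a_PXL a_RPX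

theorem a_EPB : EPB_stmt := EPB_row a_JFN a_JSK a_KDD a_BIT a_TYL a_PXL a_RPX

theorem a_KEY : KEY_stmt := KEY_row a_CTX a_PAX a_RPX a_PXL a_SRJ a_EPF a_EPB

end S5
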