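import Pool.Agent.helper96.S5.Defs

/-!
# MP_0b485e_lc, level 5: basic lemmas (proved)
-/

set_option autoImplicit false

namespace S5

open PF

noncomputable section

open Classical

theorem lst_spec {Q : ℕ → Prop} (h : ∃ n, Q n) : Q (lst Q) := Nat.sInf_mem h

theorem lst_le {Q : ℕ → Prop} {n : ℕ} (h : Q n) : lst Q ≤ n := Nat.sInf_le h

theorem lst_none {Q : ℕ → Prop} (h : ¬ ∃ n, Q n) : lst Q = 0 := by
  have : {n | Q n} = ∅ := by
    ext n
    exact ⟨fun hn => absurd ⟨n, hn⟩ h, fun hn => absurd hn (Set.notMem_empty n)⟩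
  simp [lst, this]

theorem lst_unique {Q : ℕ → Prop} {n : ℕ} (h : Q n) (hu : ∀ m, Q m → n ≤ m) : lst Q = n :=
  le_antisymm (lst_le h) (hu _ (lst_spec ⟨n, h⟩))

theorem lst_congr {Q Q' : ℕ → Prop} (h : ∀ n, Q n ↔ Q' n) : lst Q = lst Q' := by
  have : Q = Q' := funext fun n => propext (h n)
  rw [this]

theorem lst_not {Q : ℕ → Prop} {n : ℕ} (h : n < lst Q) : ¬ Q n := fun hn => absurd (lst_le hn) (not_le.2 h)

/-- there is a number with the property and with the least weight -/
theorem exists_min {A : ℕ → Prop} (w : ℕ → ℕ) (h : ∃ n, A n) : ∃ n, A n ∧ ∀ n', A n' → w n ≤ w n' := by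
  obtain ⟨n, hn⟩ := h
  have h1 : ∃ v, ∃ n, A n ∧ w n = v := ⟨w n, n, hn, rfl⟩
  obtain ⟨m, hm, hv⟩ := Nat.find_spec h1
  exact ⟨m, hm, fun n' hn' => hv ▸ Nat.find_min' h1 ⟨n', hn', rfl⟩⟩

theorem amo_ne_zero {A : ℕ → Prop} {H : List ℕ} (h : ∃ n, A n) : amo A H ≠ 0 := by
  unfold amo
  rw [if_pos h]
  exact Nat.succ_ne_zero _

theorem amo_zero {A : ℕ → Prop} {H : List ℕ} (h : ¬ ∃ n, A n) : amo A H = 0 := by
  unfold amo
  rw [if_neg h]

theorem amo_succ {A : ℕ → Prop} {H : List ℕ} {n : ℕ} (h : amo A H = n + 1) :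
    A n ∧ ∀ n', A n' → n + H.count (n + 1) ≤ n' + H.count (n' + 1) := by
  have hA : ∃ n, A n := by
    by_contra hA
    rw [amo_zero hA] at h
    exact absurd h.symm (Nat.succ_ne_zero n)
  unfold amo at h
  rw [if_pos hA] at h
  have h2 : lst (fun n => A n ∧ ∀ n', A n' → n + H.count (n + 1) ≤ n' + H.count (n' + 1)) = n := Nat.succ_injective h
  rw [← h2]
  exact lst_spec (exists_min (fun n => n + H.count (n + 1)) hA)

theorem hst_succ (A : ℕ → List ℕ → ℕ → Prop) (t : ℕ) : hst A (t + 1) = sel A t :: hst A t := rfl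

theorem sel_succ {A : ℕ → List ℕ → ℕ → Prop} {t n : ℕ} (h : sel A t = n + 1) : A t (hst A t) n :=
  (amo_succ h).1

theorem hst_length (A : ℕ → List ℕ → ℕ → Prop) (t : ℕ) : (hst A t).length = t := by
  induction t with
  | zero => rfl
  | succ t ih => rw [hst_succ, List.length_cons, ih]

theorem hst_count_le (A : ℕ → List ℕ → ℕ → Prop) (t v : ℕ) : (hst A t).count v ≤ t := by
  refine (List.count_le_length).trans (hst_length A t).le

theorem hst_count_succ (A : ℕ → List ℕ → ℕ → Prop) (t v : ℕ) :
    (hst A (t + 1)).count v = (hst A t).count v + if sel A t = v then 1 else 0 := by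
  rw [hst_succ, List.count_cons]
  by_cases h : sel A t = v
  · simp [h]
  · simp [h]

theorem hst_count_mono (A : ℕ → List ℕ → ℕ → Prop) (v : ℕ) : Monotone fun t => (hst A t).count v := by
  refine monotone_nat_of_le_succ fun t => ?_
  rw [hst_count_succ]
  exact Nat.le_add_right _ _

/-- if `v` is never selected after `t0`, its number of selections is constant -/
theorem hst_count_const (A : ℕ → List ℕ → ℕ → Prop) (v t0 : ℕ) (h : ∀ t, t0 ≤ t → sel A t ≠ v) (t : ℕ)
    (ht : t0 ≤ t) : (hst A t).count v = (hst A t0).count v := by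
  induction t, ht using Nat.le_induction with
  | base => rfl
  | succ t ht ih => rw [hst_count_succ, if_neg (h t ht), ih, Nat.add_zero]

/-- if `v` is selected infinitely often, its number of selections is unbounded -/
theorem hst_count_unb (A : ℕ → List ℕ → ℕ → Prop) (v : ℕ) (h : ∀ t0, ∃ t, t0 ≤ t ∧ sel A t = v) (c : ℕ) :
    ∃ t, c ≤ (hst A t).count v := by
  induction c with
  | zero => exact ⟨0, Nat.zero_le _⟩
  | succ c ih =>
    obtain ⟨t, ht⟩ := ih
    obtain ⟨t', ht', hs⟩ := h t
    refine ⟨t' + 1, ?_⟩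
    rw [hst_count_succ, if_pos hs]
    exact Nat.succ_le_succ (ht.trans (hst_count_mono A v ht'))

theorem Wst_mono {a s s' z : ℕ} (hs : s ≤ s') (h : Wst a s z) : Wst a s' z := by
  unfold Wst at h ⊢
  rw [Option.isSome_iff_exists] at h ⊢
  obtain ⟨x, hx⟩ := h
  exact ⟨x, Nat.Partrec.Code.evaln_mono hs hx⟩

theorem Wst_computable : ComputablePred fun x : ℕ × ℕ × ℕ => Wst x.1 x.2.1 x.2.2 := by
  have h1 : Primrec fun x : ℕ × ℕ × ℕ =>
      Nat.Partrec.Code.evaln x.2.1 (Denumerable.ofNat Nat.Partrec.Code x.1) x.2.2 :=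
    Nat.Partrec.Code.primrec_evaln.comp
      (((Primrec.fst.comp Primrec.snd).pair ((Primrec.ofNat Nat.Partrec.Code).comp Primrec.fst)).pair
        (Primrec.snd.comp Primrec.snd))
  have h2 : Primrec fun x : ℕ × ℕ × ℕ =>
      (Nat.Partrec.Code.evaln x.2.1 (Denumerable.ofNat Nat.Partrec.Code x.1) x.2.2).isSome :=
    Primrec.option_isSome.comp h1
  exact (R3_iff _).2 ⟨_, h2.to_comp, fun x => Iff.rfl⟩

/-- every r.e. set of numbers is some `We a` -/
theorem We_surj {P : ℕ → Prop} (h : REPred P) : ∃ a, ∀ z, We a z ↔ P z := by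
  obtain ⟨c, hc⟩ := Nat.Partrec.Code.exists_code.mp h
  refine ⟨Encodable.encode c, fun z => ?_⟩
  have hdom : P z ↔ (c.eval z).Dom := by
    have := congrFun hc z
    simp only [Encodable.decode_nat] at this
    rw [this]
    simp [Part.assert]
  rw [hdom, Part.dom_iff_mem]
  unfold We Wst
  simp only [Denumerable.ofNat_encode, Option.isSome_iff_exists]
  constructor
  · rintro ⟨s, x, hx⟩
    exact ⟨x, Nat.Partrec.Code.evaln_sound hx⟩
  · rintro ⟨x, hx⟩
    obtain ⟨s, hs⟩ := Nat.Partrec.Code.evaln_complete.mp hx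
    exact ⟨s, x, hs⟩

/-- `We` is r.e. in both arguments -/
theorem We_re : REPred fun x : ℕ × ℕ => We x.1 x.2 := by
  refine re_ex (p := fun (x : ℕ × ℕ) (s : ℕ) => Wst x.1 s x.2) ?_
  refine ComputablePred.to_re ?_
  exact cp_comp (f := fun x : (ℕ × ℕ) × ℕ => (x.1.1, x.2, x.1.2))
    (((Computable.fst.comp Computable.fst).pair ((Computable.snd).pair (Computable.snd.comp Computable.fst))))
    Wst_computable

theorem tkc_surj (x : List ℕ × ℕ) : ∃ n, tkc n = x :=
  ⟨Encodable.encode x, by rw [tkc, Encodable.encodek]; rfl⟩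

theorem pcc_surj (x : List ℕ × ℕ × ℕ) (j : ℕ) (h : Nat.sqrt j = Encodable.encode x) : pcc j = x := by
  rw [pcc, h, Encodable.encodek]
  rfl

theorem pcc_enc (j : ℕ) : Encodable.encode (pcc j) = Nat.sqrt j := by
  have h : ∀ n, Encodable.encode ((Encodable.decode (α := List ℕ × ℕ × ℕ) n).getD ([], 0, 0)) = n := by
    intro n
    have h1 : (Encodable.decode (α := List ℕ × ℕ × ℕ) n).isSome := Denumerable.decode_isSome _ n
    obtain ⟨y, hy⟩ := Option.isSome_iff_exists.mp h1
    rw [hy, Option.getD_some]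
    have h2 := Denumerable.decode_inv (α := List ℕ × ℕ × ℕ) n
    obtain ⟨a, ha, hb⟩ := h2
    have : some a = some y := ha.symm.trans hy
    rw [← Option.some.inj this]
    exact hb
  exact h _

theorem tkc_computable : Computable tkc :=
  (Primrec.option_getD.comp Primrec.decode (Primrec.const (([], 0) : List ℕ × ℕ))).to_comp

theorem pcc_computable : Computable pcc :=
  (Primrec.option_getD.comp (Primrec.decode.comp Primrec.nat_sqrt) (Primrec.const (([], 0, 0) : List ℕ × ℕ × ℕ))).to_comp

theorem ent_computable : Computable fun x : List ℕ × ℕ => ent x.1 x.2 :=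
  (Primrec.list_getD 0).to_comp

/-- definition by cases -/
theorem cp_ite {α β : Type} [Primcodable α] [Primcodable β] {P : α → Prop} {f g : α → β}
    (hP : ComputablePred P) (hf : Computable f) (hg : Computable g) :
    Computable fun a => if P a then f a else g a := by
  obtain ⟨p, hp, h⟩ := (R3_iff P).1 hP
  refine (Computable.cond hp hf hg).of_eq fun a => ?_
  by_cases ha : P a
  · rw [if_pos ha, (h a).1 ha]
    rfl
  · rw [if_neg ha]
    have : p a = false := by
      by_contra hne
      exact ha ((h a).2 (by simpa using hne))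
    rw [this]
    rfl

/-- the least number below a bound -/
theorem cp_lst {α : Type} [Primcodable α] {Q : α → ℕ → Prop} {b : α → ℕ}
    (hQ : ComputablePred fun x : α × ℕ => Q x.1 x.2) (hb : Computable b)
    (h : ∀ a, (∃ n, Q a n) → ∃ n, n ≤ b a ∧ Q a n) : Computable fun a => lst (Q a) := by
  obtain ⟨p, hp, hp2⟩ := (R3_iff _).1 hQ
  -- totalised search
  have h1 : Partrec fun a : α => Nat.rfind fun n => Part.some (p (a, n) || decide (b a < n)) := by
    apply Partrec.rfind
    have : Computable fun x : α × ℕ => (p x || decide (b x.1 < x.2)) := by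
      have h3 : Computable fun x : α × ℕ => decide (b x.1 < x.2) :=
        Computable₂.comp Primrec.nat_lt.decide.to_comp (hb.comp Computable.fst) Computable.snd
      exact (Primrec.or.to_comp.comp hp h3)
    exact this.partrec
  have h2 : Computable fun a : α => Nat.find (p := fun n => (p (a, n) || decide (b a < n)) = true)
      ⟨b a + 1, by simp⟩ := by
    refine h1.of_eq fun a => Part.eq_some_iff.2 (Nat.mem_rfind.2 ⟨?_, ?_⟩)
    · have := Nat.find_spec (p := fun n => (p (a, n) || decide (b a < n)) = true) ⟨b a + 1, by simp⟩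
      rw [Part.mem_some_iff]
      exact this.symm
    · intro m hm
      have := Nat.find_min (p := fun n => (p (a, n) || decide (b a < n)) = true) ⟨b a + 1, by simp⟩ hm
      rw [Part.mem_some_iff]
      simpa using this
  refine (cp_ite (cp_le h2 hb) h2 (Computable.const 0)).of_eq fun a => ?_
  by_cases hex : ∃ n, Q a n
  · obtain ⟨n, hn, hq⟩ := h a hex
    have hl : lst (Q a) ≤ b a := (lst_le hq).trans hn
    have he : Nat.find (p := fun n => (p (a, n) || decide (b a < n)) = true) ⟨b a + 1, by simp⟩ = lst (Q a) := by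
      rw [Nat.find_eq_iff]
      constructor
      · have := (hp2 (a, lst (Q a))).1 (lst_spec hex)
        simp [this]
      · intro m hm
        have h3 : ¬ Q a m := lst_not hm
        have h4 : p (a, m) = false := by
          by_contra hne
          exact h3 ((hp2 (a, m)).2 (by simpa using hne))
        have h5 : ¬ b a < m := by omega
        simp [h4, h5]
    rw [he, if_pos hl]
  · have hf : b a < Nat.find (p := fun n => (p (a, n) || decide (b a < n)) = true) ⟨b a + 1, by simp⟩ := by
      have := Nat.find_spec (p := fun n => (p (a, n) || decide (b a < n)) = true) ⟨b a + 1, by simp⟩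
      rw [Bool.or_eq_true] at this
      rcases this with h3 | h3
      · exact absurd ⟨_, (hp2 (a, _)).2 h3⟩ hex
      · exact of_decide_eq_true h3
    rw [if_neg (not_le.2 hf), lst_none hex]

end

end S5
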