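import Pool.Agent.helper96.S5.SpecR

/-!
# MP_0b485e_lc, level 5: basic lemmas for block V (proved)
-/

set_option autoImplicit false

namespace S5

open PF

noncomputable section

open Classical

theorem mk_le {A B : CES} : EStar.mk A ≤ EStar.mk B ↔ (A.1 \ B.1).Finite := Iff.rfl

theorem mk_inf (A B : CES) : EStar.mk A ⊓ EStar.mk B = EStar.mk (A.inter B) := rfl

theorem mk_sup (A B : CES) : EStar.mk A ⊔ EStar.mk B = EStar.mk (A.union B) := rfl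

theorem mk_surj (x : EStar) : ∃ A, EStar.mk A = x := Quotient.exists_rep x

theorem mk_eq' {A B : CES} : EStar.mk A = EStar.mk B ↔ (A.1 \ B.1).Finite ∧ (B.1 \ A.1).Finite := by
  rw [EStar.mk_eq, ← eqStar_iff]
  rfl

theorem mk_bot {A : CES} : EStar.mk A = ⊥ ↔ A.1.Finite := by
  show EStar.mk A = EStar.mk CES.empty ↔ _
  rw [mk_eq']
  show (A.1 \ ∅).Finite ∧ (∅ \ A.1).Finite ↔ _
  rw [Set.sdiff_empty, Set.empty_sdiff]
  exact ⟨fun h => h.1, fun h => ⟨h, Set.finite_empty⟩⟩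

theorem mk_top {A : CES} : EStar.mk A = ⊤ ↔ {x | x ∉ A.1}.Finite := by
  show EStar.mk A = EStar.mk CES.univ ↔ _
  rw [mk_eq']
  show (A.1 \ Set.univ).Finite ∧ (Set.univ \ A.1).Finite ↔ _
  have h1 : Set.univ \ A.1 = {x | x ∉ A.1} := by
    ext x
    exact ⟨fun h => h.2, fun h => ⟨trivial, h⟩⟩
  rw [Set.sdiff_univ, h1]
  exact ⟨fun h => h.2, fun h => ⟨Set.finite_empty, h⟩⟩

/-- equal sets give equal classes -/
theorem mk_set {A B : CES} (h : A.1 = B.1) : EStar.mk A = EStar.mk B := by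
  have : A = B := Subtype.ext h
  rw [this]

theorem inter_val (A B : CES) : (A.inter B).1 = A.1 ∩ B.1 := rfl

theorem union_val (A B : CES) : (A.union B).1 = A.1 ∪ B.1 := rfl

variable {X : Cx} {p : ℕ → EStar}

theorem jm_iff (hp : X.Par p) (R : CES) : Jm p (EStar.mk R) ↔ ∃ R' R1 : CES,
    {x | x ∉ R.1 ∧ x ∉ R'.1}.Finite ∧ (R.1 ∩ R'.1).Finite ∧ (R1.1 ∩ X.sL).Finite ∧
    (R.1 \ (R1.1 ∪ X.sL)).Finite ∧ (R1.1 \ R.1).Finite := by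
  obtain ⟨h3, hp3⟩ := hp.p3
  unfold Jm
  rw [hp3]
  have key : ∀ R' R1 : CES, (EStar.mk R ⊔ EStar.mk R' = ⊤ ∧ EStar.mk R ⊓ EStar.mk R' = ⊥ ∧
      EStar.mk R1 ⊓ EStar.mk ⟨X.sL, h3⟩ = ⊥ ∧
      EStar.mk R = EStar.mk R1 ⊔ (EStar.mk R ⊓ EStar.mk ⟨X.sL, h3⟩)) ↔
      ({x | x ∉ R.1 ∧ x ∉ R'.1}.Finite ∧ (R.1 ∩ R'.1).Finite ∧ (R1.1 ∩ X.sL).Finite ∧
    (R.1 \ (R1.1 ∪ X.sL)).Finite ∧ (R1.1 \ R.1).Finite) := by
    intro R' R1
    rw [mk_sup, mk_inf, mk_inf, mk_inf, mk_sup, mk_top, mk_bot, mk_bot, mk_eq']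
    have e1 : {x | x ∉ (R.union R').1} = {x | x ∉ R.1 ∧ x ∉ R'.1} := by
      ext x
      exact ⟨fun h => ⟨fun h1 => h (Or.inl h1), fun h1 => h (Or.inr h1)⟩,
        fun h h1 => h1.elim h.1 h.2⟩
    have e2 : R.1 \ (R1.union (R.inter ⟨X.sL, h3⟩)).1 = R.1 \ (R1.1 ∪ X.sL) := by
      ext x
      constructor
      · rintro ⟨h1, h2⟩
        exact ⟨h1, fun h4 => h2 (h4.elim (fun h5 => Or.inl h5) fun h5 => Or.inr ⟨h1, h5⟩)⟩
      · rintro ⟨h1, h2⟩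
        exact ⟨h1, fun h4 => h2 (h4.elim (fun h5 => Or.inl h5) fun h5 => Or.inr h5.2)⟩
    have e3 : (R1.union (R.inter ⟨X.sL, h3⟩)).1 \ R.1 = R1.1 \ R.1 := by
      ext x
      constructor
      · rintro ⟨h1, h2⟩
        exact ⟨h1.elim id fun h5 => absurd h5.1 h2, h2⟩
      · rintro ⟨h1, h2⟩
        exact ⟨Or.inl h1, h2⟩
    rw [e1, e2, e3]
    exact Iff.rfl
  constructor
  · rintro ⟨x, y, h⟩
    obtain ⟨R', rfl⟩ := mk_surj x
    obtain ⟨R1, rfl⟩ := mk_surj y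
    exact ⟨R', R1, (key R' R1).1 h⟩
  · rintro ⟨R', R1, h⟩
    exact ⟨EStar.mk R', EStar.mk R1, (key R' R1).2 h⟩

theorem yy_iff (hp : X.Par p) (Y : CES) : Yy p (EStar.mk Y) ↔ ∃ Y1 : CES,
    (Y1.1 ∩ X.sM).Finite ∧ (Y.1 \ (Y1.1 ∪ X.sM)).Finite ∧ (Y1.1 \ Y.1).Finite := by
  obtain ⟨h4, hp4⟩ := hp.p4
  unfold Yy
  rw [hp4]
  have key : ∀ Y1 : CES, (EStar.mk Y1 ⊓ EStar.mk ⟨X.sM, h4⟩ = ⊥ ∧
      EStar.mk Y = EStar.mk Y1 ⊔ (EStar.mk Y ⊓ EStar.mk ⟨X.sM, h4⟩)) ↔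
      ((Y1.1 ∩ X.sM).Finite ∧ (Y.1 \ (Y1.1 ∪ X.sM)).Finite ∧ (Y1.1 \ Y.1).Finite) := by
    intro Y1
    rw [mk_inf, mk_inf, mk_sup, mk_bot, mk_eq']
    have e2 : Y.1 \ (Y1.union (Y.inter ⟨X.sM, h4⟩)).1 = Y.1 \ (Y1.1 ∪ X.sM) := by
      ext x
      constructor
      · rintro ⟨h1, h2⟩
        exact ⟨h1, fun h4 => h2 (h4.elim (fun h5 => Or.inl h5) fun h5 => Or.inr ⟨h1, h5⟩)⟩
      · rintro ⟨h1, h2⟩
        exact ⟨h1, fun h4 => h2 (h4.elim (fun h5 => Or.inl h5) fun h5 => Or.inr h5.2)⟩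
    have e3 : (Y1.union (Y.inter ⟨X.sM, h4⟩)).1 \ Y.1 = Y1.1 \ Y.1 := by
      ext x
      constructor
      · rintro ⟨h1, h2⟩
        exact ⟨h1.elim id fun h5 => absurd h5.1 h2, h2⟩
      · rintro ⟨h1, h2⟩
        exact ⟨Or.inl h1, h2⟩
    rw [e2, e3]
    exact Iff.rfl
  constructor
  · rintro ⟨x, h⟩
    obtain ⟨Y1, rfl⟩ := mk_surj x
    exact ⟨Y1, (key Y1).1 h⟩
  · rintro ⟨Y1, h⟩
    exact ⟨EStar.mk Y1, (key Y1).2 h⟩

theorem ks_iff (hp : X.Par p) (w : CES) : Ks p (EStar.mk w) ↔ ∃ Y : CES, Yy p (EStar.mk Y) ∧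
    ∀ Y' : CES, Yy p (EStar.mk Y') → ((Y'.1 ∩ Y.1) \ X.sD).Finite → ((Y'.1 ∩ w.1) \ X.sD).Finite := by
  obtain ⟨h2, hp2⟩ := hp.p2
  unfold Ks
  rw [hp2]
  constructor
  · rintro ⟨y, hy, h⟩
    obtain ⟨Y, rfl⟩ := mk_surj y
    exact ⟨Y, hy, fun Y' hY' h1 => h (EStar.mk Y') hY' h1⟩
  · rintro ⟨Y, hY, h⟩
    refine ⟨EStar.mk Y, hY, fun y' hy' h1 => ?_⟩
    obtain ⟨Y', rfl⟩ := mk_surj y'
    exact h Y' hy' h1

theorem dm_iff (hp : X.Par p) (x x' : CES) : Dm p (EStar.mk x) (EStar.mk x') ↔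
    ((x.1 ∩ x'.1) \ X.sD).Finite ∧ (X.sA \ (x.1 ∪ x'.1)).Finite := by
  obtain ⟨h1, hp1⟩ := hp.p1
  obtain ⟨h2, hp2⟩ := hp.p2
  unfold Dm
  rw [hp1, hp2]
  exact Iff.rfl

/-- the ticket of every element is admissible -/
theorem th_adm (B : BD) (h : 0 < B.lam) (k t : ℕ) : (B.th k t).2 < B.lam ∧
    ∀ i < (B.th k t).1.length, ent (B.th k t).1 i ≠ 0 → B.pr i k t := by
  have hex : ∃ n, B.tA k t (hst (B.tA k) t) n := by
    obtain ⟨n, hn⟩ := tkc_surj ([], 0)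
    refine ⟨n, ?_⟩
    unfold BD.tA
    rw [hn]
    exact ⟨h, fun i hi => absurd hi (Nat.not_lt_zero i)⟩
  obtain ⟨n, hn⟩ := Nat.exists_eq_succ_of_ne_zero (amo_ne_zero (H := hst (B.tA k) t) hex)
  have h1 : sel (B.tA k) t = n + 1 := hn
  have h2 := sel_succ h1
  unfold BD.th
  rw [h1, Nat.add_sub_cancel]
  exact h2

/-- finite sets are computable -/
theorem fin_cp {F : Set ℕ} (h : F.Finite) : ComputablePred fun x => x ∈ F := by
  induction F, h using Set.Finite.induction_on with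
  | empty => exact (cp_const False)
  | @insert a F _ _ ih =>
    have h1 : ComputablePred fun x : ℕ => x = a := cp_eq Computable.id (Computable.const a)
    exact cp_or h1 ih

/-- adding a finite set -/
theorem re_fin_union {A F : Set ℕ} (hA : REPred fun x => x ∈ A) (h : F.Finite) : REPred fun x => x ∈ A ∪ F :=
  re_or hA (fin_cp h).to_re

/-- removing a finite set -/
theorem re_fin_diff {A F : Set ℕ} (hA : REPred fun x => x ∈ A) (h : F.Finite) : REPred fun x => x ∈ A \ F :=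
  re_and hA (cp_not (fin_cp h)).to_re

/-- a computable function with a finite set of exceptions: images of finite sets -/
theorem blocks_finite {F : Set ℕ} (h : F.Finite) : ∃ K, ∀ k, K ≤ k → ∀ z, Nat.pair k z ∉ F := by
  obtain ⟨K, hK⟩ := (h.image fun x => x.unpair.1).bddAbove
  refine ⟨K + 1, fun k hk z hz => ?_⟩
  have h1 : (Nat.pair k z).unpair.1 ≤ K := hK ⟨_, hz, rfl⟩
  rw [Nat.unpair_pair] at h1
  exact absurd (hk.trans h1) (Nat.not_succ_le_self K)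

end

end S5
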