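import Pool.Agent.helper88.PF.Defs

/-!
# MP_0b485e_lc: the `Σ_5`-theory and the `Π_5`-theory of `E*` are undecidable. Definitions

Block L: sentences with a given quantifier pattern, representation of properties by prenex formulas, the formulas
used in the proof. Block M: affine machines with five registers, Horn rules, models. Block R: the general
construction in one block, conditions, tickets, pieces. Block V: the sets.

Syntax (`Tm`, `Fm`, `Sat`, `str`) and the lattice `EStar` are in `Pool.Agent.helper88.PF.Defs`.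
-/

set_option autoImplicit false

namespace S5

open PF

noncomputable section

open Classical

/-! ## Block L: patterns and closed formulas -/

/-- `q` consists of `n` blocks of quantifiers (`true` = universal), none of them empty; the first block is of the
kind `b`, the kinds alternate. -/
def Pat : ℕ → Bool → List Bool → Prop
  | 0, _, q => q = []
  | n + 1, b, q => ∃ k q', q = List.replicate (k + 1) b ++ q' ∧ Pat n (!b) q'

/-- all variables of the formula have numbers less than `n` -/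
def clo (n : ℕ) : Fm → Prop
  | .eq a b => ∀ i, a.Occ i ∨ b.Occ i → i < n
  | .neg a => clo n a
  | .and a b => clo n a ∧ clo n b
  | .or a b => clo n a ∧ clo n b

/-- `x, e 0, e 1, ...` -/
def cns {L : Type} (x : L) (e : ℕ → L) : ℕ → L
  | 0 => x
  | n + 1 => e n

/-- truth of the matrix `m` after the quantifiers `q` -/
def St (L : Type) : List Bool → ((ℕ → L) → Prop) → (ℕ → L) → Prop
  | [], m, e => m e
  | true :: q, m, e => ∀ x, St L q m (cns x e)
  | false :: q, m, e => ∃ x, St L q m (cns x e)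

/-- matrices with additional relation symbols (number `r`) with four arguments -/
inductive XM : Type
  | fm (φ : Fm)
  | rl (r i1 i2 i3 i4 : ℕ)
  | neg (a : XM)
  | and (a b : XM)
  | or (a b : XM)

/-- truth of a matrix; `δ` gives the additional relations -/
def XM.ev {L : Type} [Lattice L] [BoundedOrder L] (δ : ℕ → L → L → L → L → Prop) (e : ℕ → L) :
    XM → Prop
  | fm φ => φ.Holds e
  | rl r i1 i2 i3 i4 => δ r (e i1) (e i2) (e i3) (e i4)
  | neg a => ¬ a.ev δ e
  | and a b => a.ev δ e ∧ b.ev δ e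
  | or a b => a.ev δ e ∨ b.ev δ e

/-- `P` is given by a prenex formula with `n` blocks, the first of the kind `b` -/
def Rp (L : Type) [Lattice L] [BoundedOrder L] (n : ℕ) (b : Bool)
    (P : (ℕ → L → L → L → L → Prop) → (ℕ → L) → Prop) : Prop :=
  ∃ q μ, Pat n b q ∧ ∀ δ e, P δ e ↔ St L q (fun f => XM.ev δ f μ) e

/-- interleaving -/
def ilv {L : Type} (v e : ℕ → L) (i : ℕ) : L := if i % 2 = 0 then v (i / 2) else e (i / 2)

/-! ## Block L: the formulas. Parameters `p 0 = Ah`, `p 1 = A`, `p 2 = D`, `p 3 = Λ`, `p 4 = Λ'`,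
`p 5, ..., p 8` the sets `G_1, ..., G_4`, `p 9, p 10, ...` the colours. -/

section

variable {L : Type} [Lattice L] [BoundedOrder L] (p : ℕ → L)

/-- the computable sets which are outside `Λ` computably enumerable -/
def Jm (R : L) : Prop := ∃ R' R1 : L, R ⊔ R' = ⊤ ∧ R ⊓ R' = ⊥ ∧ R1 ⊓ p 3 = ⊥ ∧ R = R1 ⊔ (R ⊓ p 3)

/-- the sets which are outside `Λ'` computably enumerable -/
def Yy (Y : L) : Prop := ∃ Y1 : L, Y1 ⊓ p 4 = ⊥ ∧ Y = Y1 ⊔ (Y ⊓ p 4)

/-- small sets -/
def Ks (w : L) : Prop := ∃ Y : L, Yy p Y ∧ ∀ Y' : L, Yy p Y' → Y' ⊓ Y ≤ p 2 → Y' ⊓ w ≤ p 2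

/-- the relation with the colour `c` -/
def EC (c : ℕ) (x x' y y' : L) : Prop := ∀ R : L, Jm p R → ∃ R' : L, Jm p R' ∧ R ⊓ R' = ⊥ ∧
  ¬ R' ≤ p 0 ∧ Ks p (p c ⊓ R') ∧ Ks p (x' ⊓ p 5 ⊓ R') ∧ Ks p (x ⊓ p 6 ⊓ R') ∧
  Ks p (y' ⊓ p 7 ⊓ R') ∧ Ks p (y ⊓ p 8 ⊓ R')

/-- the domain -/
def Dm (x x' : L) : Prop := x ⊓ x' ≤ p 2 ∧ p 1 ≤ x ⊔ x'

end

/-! ## Block M: Horn rules -/

/-- An atom `(r, i, j)`: the relation number `r` between the variables `i` and `j`. -/
abbrev At : Type := ℕ × ℕ × ℕ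

/-- A Horn rule: the list of its hypotheses and the conclusion (`none` is falsity). -/
abbrev HR : Type := List At × Option At

/-- the rule is true for the relations `ρ` -/
def Tr {X : Type} (ρ : ℕ → X → X → Prop) (h : HR) : Prop :=
  ∀ v : ℕ → X, (∀ a ∈ h.1, ρ a.1 (v a.2.1) (v a.2.2)) → ∃ a, h.2 = some a ∧ ρ a.1 (v a.2.1) (v a.2.2)

/-- Models: the rules are true, the relation number `s` is total, the atoms `gr` between the constants `c` are
true. -/
def Mdl {X : Type} (rules : List HR) (s : ℕ) (gr : List At) (ρ : ℕ → X → X → Prop) (c : ℕ → X) : Prop :=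
  (∀ h ∈ rules, Tr ρ h) ∧ (∀ x, ∃ y, ρ s x y) ∧ ∀ a ∈ gr, ρ a.1 (c a.2.1) (c a.2.2)

/-- all relation symbols of the rule are less than `R` -/
def HOk (R : ℕ) (h : HR) : Prop := (∀ a ∈ h.1, a.1 < R) ∧ ∀ a, h.2 = some a → a.1 < R

/-- the variables of an atom -/
def avr (a : At) : List ℕ := [a.2.1, a.2.2]

/-- the variables of a rule -/
def hvr (h : HR) : List ℕ := h.1.flatMap avr ++ h.2.toList.flatMap avr

section

variable {L : Type} [Lattice L] [BoundedOrder L]

/-- the translation of a rule; the variable number `i` is the pair `v (2 i), v (2 i + 1)`. The positive form of the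
relation `r` is not `EC (10 + 2 r)`, the negative form is not `EC (9 + 2 r)`. -/
def RuF (h : HR) (v p : ℕ → L) : Prop := (∀ i ∈ hvr h, Dm p (v (2 * i)) (v (2 * i + 1))) →
  (∃ a ∈ h.1, ¬ EC p (9 + 2 * a.1) (v (2 * a.2.1)) (v (2 * a.2.1 + 1)) (v (2 * a.2.2)) (v (2 * a.2.2 + 1))) ∨
  ∃ a ∈ h.2.toList, ¬ EC p (10 + 2 * a.1) (v (2 * a.2.1)) (v (2 * a.2.1 + 1)) (v (2 * a.2.2))
    (v (2 * a.2.2 + 1))

/-- The body of the sentence. `R` is the number of relation symbols, `s` the total relation. -/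
def Bd (R : ℕ) (rules : List HR) (s : ℕ) (δ : ℕ → L → L → L → L → Prop) (p : ℕ → L) : Prop :=
  δ 0 (p 2) (p 1) (p 2) (p 1) ∧
  (∀ r ∈ List.range R, ∀ x x' y y' : L, Dm p x x' → Dm p y y' →
    EC p (9 + 2 * r) x x' y y' ∨ EC p (10 + 2 * r) x x' y y') ∧
  (∀ h ∈ rules, ∀ v : ℕ → L, RuF h v p) ∧
  (∀ x x' : L, Dm p x x' → ∃ y y' : L, Dm p y y' ∧ ¬ EC p (10 + 2 * s) x x' y y') ∧
  ∀ r ∈ List.range R, ∀ x x' y y' : L, δ (r + 1) x x' y y' → ¬ EC p (10 + 2 * r) x x' y y'

/-- The additional relations: `δ 0` says that the constants `c (2 a), c (2 a + 1)` (`a ≤ M`) are in the domain,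
`δ (r + 1)` are the atoms of `gr` with the symbol `r`. -/
def dl (gr : List At) (M : ℕ) (c : ℕ → L) : ℕ → L → L → L → L → Prop
  | 0, x, x', _, _ => ∀ a ∈ List.range (M + 1), c (2 * a) ⊓ c (2 * a + 1) ≤ x ∧ x' ≤ c (2 * a) ⊔ c (2 * a + 1)
  | r + 1, x, x', y, y' => ∃ a ∈ gr, a.1 = r ∧ (x = c (2 * a.2.1) ∧ x' = c (2 * a.2.1 + 1)) ∧
      y = c (2 * a.2.2) ∧ y' = c (2 * a.2.2 + 1)

end

/-- The key property of a lattice: every finite structure is represented. -/
def KeyP (L : Type) [Lattice L] [BoundedOrder L] : Prop :=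
  ∀ (m R : ℕ) (ρ : ℕ → Fin m → Fin m → Prop), 0 < m → 0 < R →
  ∃ (p : ℕ → L) (π : {x : L × L // Dm p x.1 x.2} → Fin m), Function.Surjective π ∧
    ∀ r < R, ∀ x y, (EC p (9 + 2 * r) x.1.1 x.1.2 y.1.1 y.1.2 ↔ ρ r (π x) (π y)) ∧
      (EC p (10 + 2 * r) x.1.1 x.1.2 y.1.1 y.1.2 ↔ ¬ ρ r (π x) (π y))

/-! ## Block L: substitution -/

/-- the variable `i` if `i < N`, else the constant `0` -/
def vb (N i : ℕ) : Tm := if i < N then .var i else .bot

/-- the variables with numbers `≥ N` are replaced by `0` -/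
def tsb (N : ℕ) : Tm → Tm
  | .var i => vb N i
  | .bot => .bot
  | .top => .top
  | .sup a b => .sup (tsb N a) (tsb N b)
  | .inf a b => .inf (tsb N a) (tsb N b)

/-- the same for formulas -/
def fsb (N : ℕ) : Fm → Fm
  | .eq a b => .eq (tsb N a) (tsb N b)
  | .neg a => .neg (fsb N a)
  | .and a b => .and (fsb N a) (fsb N b)
  | .or a b => .or (fsb N a) (fsb N b)

/-- `a ≤ b` -/
def leF (a b : Tm) : Fm := .eq (.sup a b) b

/-- a true formula -/
def trF : Fm := .eq .bot .bot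

/-- a conjunction -/
def anL (l : List Fm) : Fm := l.foldr .and trF

/-- a disjunction -/
def orL (l : List Fm) : Fm := l.foldr .or (.neg trF)

/-- the formula for the additional relation `r`, the constant `c i` is the variable `N + i` -/
def dF (N : ℕ) (gr : List At) (M : ℕ) : ℕ → ℕ → ℕ → ℕ → ℕ → Fm
  | 0, i1, i2, _, _ => anL ((List.range (M + 1)).map fun a =>
      .and (leF (.inf (.var (N + 2 * a)) (.var (N + (2 * a + 1)))) (vb N i1))
        (leF (vb N i2) (.sup (.var (N + 2 * a)) (.var (N + (2 * a + 1))))))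
  | r + 1, i1, i2, i3, i4 => orL (gr.map fun a => if a.1 = r then
      .and (.and (.eq (vb N i1) (.var (N + 2 * a.2.1))) (.eq (vb N i2) (.var (N + (2 * a.2.1 + 1)))))
        (.and (.eq (vb N i3) (.var (N + 2 * a.2.2))) (.eq (vb N i4) (.var (N + (2 * a.2.2 + 1)))))
      else .neg trF)

/-- the matrix of the sentence -/
def xsb (N : ℕ) (gr : List At) (M : ℕ) : XM → Fm
  | .fm φ => fsb N φ
  | .rl r i1 i2 i3 i4 => dF N gr M r i1 i2 i3 i4
  | .neg a => .neg (xsb N gr M a)
  | .and a b => .and (xsb N gr M a) (xsb N gr M b)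
  | .or a b => .or (xsb N gr M a) (xsb N gr M b)

/-! ## Block M: affine machines with five registers -/

/-- An instruction `i`: `P n + a ↦ q n + c`, coordinatewise. -/
structure AM where
  m : ℕ
  P : Fin m → Fin 5 → ℕ
  a : Fin m → Fin 5 → ℕ
  q : Fin m → Fin 5 → ℕ
  c : Fin m → Fin 5 → ℕ

/-- one step -/
def AM.stp (A : AM) (x y : Fin 5 → ℕ) : Prop :=
  ∃ (i : Fin A.m) (n : Fin 5 → ℕ), (∀ j, x j = A.P i j * n j + A.a i j) ∧ ∀ j, y j = A.q i j * n j + A.c i j

/-- the properties of the machine that are used -/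
structure AM.Ok (A : AM) (z0 z1 : Fin 5 → ℕ) : Prop where
  pos : ∀ i j, 0 < A.P i j ∧ 0 < A.q i j
  det : ∀ x y y', A.stp x y → A.stp x y' → y = y'
  t0 : ∀ y, ¬ A.stp z0 y
  t1 : ∀ y, ¬ A.stp z1 y
  ne : z0 ≠ z1

/-- the chain `S (b, b + 1), ..., S (b + k - 1, b + k)`; the relation number `0` is the successor -/
def chn (b k : ℕ) : List At := (List.range k).map fun i => (0, b + i, b + i + 1)

/-- the relation number of the left side of instruction `i`, register `j` -/
def mL (i j : ℕ) : ℕ := 7 + 2 * (5 * i + j)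

/-- the relation number of the right side -/
def mR (i j : ℕ) : ℕ := 8 + 2 * (5 * i + j)

/-- the rules for the graph `G` of `n ↦ P n + a` (`G (P n + a, n)`); the relation number `1` is `being zero` -/
def gru (G P a : ℕ) : List HR :=
  [((1, 0, 0) :: chn 0 a, some (G, a, 0)),
   ((G, 0, P + 1) :: (0, P + 1, P + 2) :: chn 0 P, some (G, P, P + 2))]

/-- the hypotheses of the rules for instruction `i`: variables `0, 1` time, `2 + j` old value, `7 + j` parameter,
`12 + j` new value of the register `j` (relation number `2 + j`) -/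
def sbd (i : ℕ) : List At := (0, 0, 1) :: (List.range 5).flatMap fun j =>
  [(2 + j, 0, 2 + j), (mL i j, 2 + j, 7 + j), (mR i j, 12 + j, 7 + j)]

/-- the sum of the coordinates -/
def sm5 (x : Fin 5 → ℕ) : ℕ := x 0 + x 1 + x 2 + x 3 + x 4

/-- all rules -/
def thy (A : AM) (z1 : Fin 5 → ℕ) : List HR :=
  (List.finRange A.m).flatMap (fun (i : Fin A.m) => (List.finRange 5).flatMap fun (j : Fin 5) =>
    gru (mL i j) (A.P i j) (A.a i j) ++ (gru (mR i j) (A.q i j) (A.c i j) ++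
      [(sbd i, some (2 + (j : ℕ), 1, 12 + (j : ℕ)))])) ++
  [((1, 0, 0) :: (chn 0 (sm5 z1) ++ (List.finRange 5).map fun (j : Fin 5) => (2 + (j : ℕ), sm5 z1 + 1, z1 j)), none)]

/-- the atoms for the start `x` -/
def grd (x : Fin 5 → ℕ) : List At :=
  (1, 0, 0) :: (chn 0 (sm5 x) ++ (List.finRange 5).map fun (j : Fin 5) => (2 + (j : ℕ), 0, x j))

/-- the number of relation symbols -/
def nrl (A : AM) : ℕ := 7 + 10 * A.m

/-! ## Block R: tools -/

/-- the least number with the property (`0` if there is none) -/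
def lst (Q : ℕ → Prop) : ℕ := sInf {n | Q n}

/-- Selection: the number `n` with the property `A` and with the least `n + ` (number of earlier selections of `n`);
the result is `n + 1`, and `0` if there is no such number. `H` is the list of the earlier results. -/
def amo (A : ℕ → Prop) (H : List ℕ) : ℕ :=
  if ∃ n, A n then lst (fun n => A n ∧ ∀ n', A n' → n + H.count (n + 1) ≤ n' + H.count (n' + 1)) + 1 else 0

/-- the list of the first results (the last one first) -/
def hst (A : ℕ → List ℕ → ℕ → Prop) : ℕ → List ℕ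
  | 0 => []
  | t + 1 => amo (A t (hst A t)) (hst A t) :: hst A t

/-- the selection at time `t` -/
def sel (A : ℕ → List ℕ → ℕ → Prop) (t : ℕ) : ℕ := amo (A t (hst A t)) (hst A t)

/-- `Wst a s z`: the number `z` is in the `a`-th c.e. set at stage `s` -/
def Wst (a s z : ℕ) : Prop :=
  (Nat.Partrec.Code.evaln s (Denumerable.ofNat Nat.Partrec.Code a) z).isSome = true

/-- `z` is in the `a`-th c.e. set -/
def We (a z : ℕ) : Prop := ∃ s, Wst a s z

/-- the number with the binary digits `P 0, ..., P (s - 1)` -/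
def bv (P : ℕ → Prop) : ℕ → ℕ
  | 0 => 0
  | s + 1 => 2 * bv P s + if P s then 1 else 0

/-- for all large numbers -/
def Lg (P : ℕ → Prop) : Prop := ∃ n0, ∀ n, n0 ≤ n → P n

/-! ## Block R: the construction in the blocks -/

/-- The data of the construction: `cn i k s` the counter of the condition `i` in block `k`, `pr i k t` the
pre-condition, `dc i k t s` the decision on the element `t` at stage `s`, `al k g l c` the permission for the class,
`lam` the number of labels. -/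
structure BD where
  cn : ℕ → ℕ → ℕ → ℕ
  pr : ℕ → ℕ → ℕ → Prop
  dc : ℕ → ℕ → ℕ → ℕ → ℕ
  al : ℕ → List ℕ → ℕ → ℕ → Prop
  lam : ℕ

/-- everything is computable -/
structure BD.Cp (B : BD) : Prop where
  cn : Computable fun x : ℕ × ℕ × ℕ => B.cn x.1 x.2.1 x.2.2
  pr : ComputablePred fun x : ℕ × ℕ × ℕ => B.pr x.1 x.2.1 x.2.2
  dc : Computable fun x : (ℕ × ℕ) × ℕ × ℕ => B.dc x.1.1 x.1.2 x.2.1 x.2.2
  al : ComputablePred fun x : (ℕ × List ℕ) × ℕ × ℕ => B.al x.1.1 x.1.2 x.2.1 x.2.2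

/-- the condition `i` holds in block `k` -/
def BD.C (B : BD) (i k : ℕ) : Prop := ∀ z, ∃ s, z < B.cn i k s

/-- the hypotheses on the block `k` -/
structure BD.Gd (B : BD) (k : ℕ) : Prop where
  lam : 0 < B.lam
  mono : ∀ i s, B.cn i k s ≤ B.cn i k (s + 1)
  dc2 : ∀ i t s, B.dc i k t s ≤ 2
  dcp : ∀ i t s, B.dc i k t s ≠ 0 → B.dc i k t (s + 1) = B.dc i k t s
  h1 : ∀ F : List ℕ, (∀ i ∈ F, B.C i k) → ∀ t0, ∃ t, t0 ≤ t ∧ ∀ i ∈ F, B.pr i k t
  h2 : ∀ i, B.C i k → ∀ t, ∃ s, B.dc i k t s ≠ 0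

/-- the ticket with the number `n`: a list of truth values and a label -/
def tkc (n : ℕ) : List ℕ × ℕ := (Encodable.decode (α := List ℕ × ℕ) n).getD ([], 0)

/-- the piece with the number `j`: a string, a label, a colour; all numbers `j` with the same integral square root
are copies of each other -/
def pcc (j : ℕ) : List ℕ × ℕ × ℕ := (Encodable.decode (α := List ℕ × ℕ × ℕ) (Nat.sqrt j)).getD ([], 0, 0)

/-- the `i`-th entry -/
def ent (g : List ℕ) (i : ℕ) : ℕ := g.getD i 0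

namespace BD

variable (B : BD) (k : ℕ)

/-- the ticket `n` is admissible at time `t` -/
def tA (t : ℕ) (_ : List ℕ) (n : ℕ) : Prop := (tkc n).2 < B.lam ∧
  ∀ i < (tkc n).1.length, ent (tkc n).1 i ≠ 0 → B.pr i k t

/-- the ticket of the element `t` -/
def th (t : ℕ) : List ℕ × ℕ := tkc (sel (B.tA k) t - 1)

/-- the element `t` is ready at stage `s` -/
def rd (t s : ℕ) : Prop := t < s ∧ ∀ i < (B.th k t).1.length, ent (B.th k t).1 i ≠ 0 → B.dc i k t s ≠ 0

/-- at step `u = (s, t)` the element `t` is processed -/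
def prc (u : ℕ) : Prop := B.rd k u.unpair.2 u.unpair.1 ∧ ∀ s' < u.unpair.1, ¬ B.rd k u.unpair.2 s'

/-- the value of the condition `i` for the element of step `u` -/
def vl (u i : ℕ) : ℕ := if ent (B.th k u.unpair.2).1 i ≠ 0 then B.dc i k u.unpair.2 u.unpair.1 else 0

/-- the element processed at step `u` has the label `l` and a ticket of sufficient length -/
def lbl (u : ℕ) (g : List ℕ) (l : ℕ) : Prop := B.prc k u ∧ (B.th k u.unpair.2).2 = l ∧
  g.length ≤ (B.th k u.unpair.2).1.length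

/-- the element processed at step `u` fits `g, l` -/
def fit (u : ℕ) (g : List ℕ) (l : ℕ) : Prop := B.lbl k u g l ∧ ∀ i < g.length, B.vl k u i = ent g i

/-- the element processed at step `u` fits `g, l`, but with greater values -/
def big (u : ℕ) (g : List ℕ) (l : ℕ) : Prop := B.lbl k u g l ∧
  (∀ i < g.length, (B.vl k u i = 0 ↔ ent g i = 0)) ∧
  ∃ i < g.length, ent g i < B.vl k u i ∧ ∀ i' < i, B.vl k u i' = ent g i'

/-- the piece `j` is a candidate at step `u`; `H` is the list of the earlier choices -/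
def pA (u : ℕ) (H : List ℕ) (j : ℕ) : Prop := j < u ∧ H.count (j + 1) < u ∧
  B.fit k u (pcc j).1 (pcc j).2.1 ∧ B.al k (pcc j).1 (pcc j).2.1 (pcc j).2.2 ∧
  ∀ i < (pcc j).1.length, ent (pcc j).1 i ≠ 0 → H.count (j + 1) < B.cn i k u

/-- the choice at step `u`: `j + 1` if the element processed at step `u` is given to the piece `j`, else `0` -/
def asg (u : ℕ) : ℕ := sel (B.pA k) u

/-- there is a dump event for the piece `j` at step `u` -/
def dmp (u j : ℕ) : Prop :=
  (∃ i < (pcc j).1.length, ent (pcc j).1 i = 0 ∧ B.cn i k u < B.cn i k (u + 1)) ∨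
  B.big k u (pcc j).1 (pcc j).2.1

/-- the element `t` is in the piece `j` -/
def inp (j t : ℕ) : Prop := ∃ s, B.asg k (Nat.pair s t) = j + 1

/-- the element `t` is given to the piece `j` and dumped later -/
def ind (j t : ℕ) : Prop := ∃ s, B.asg k (Nat.pair s t) = j + 1 ∧ ∃ u, Nat.pair s t ≤ u ∧ B.dmp k u j

/-- `g` is the right string for the label `l` -/
def RS (g : List ℕ) (l : ℕ) : Prop := (∀ i < g.length, (ent g i ≠ 0 ↔ B.C i k)) ∧
  (∀ u0, ∃ u, u0 ≤ u ∧ B.fit k u g l) ∧ ∃ u0, ∀ u, u0 ≤ u → ¬ B.big k u g l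

/-- the limit of the values of the condition `i` in the right strings for the label `l` is `v` -/
def lv (l i v : ℕ) : Prop := ∃ n0, ∀ g, B.RS k g l → n0 ≤ g.length → ent g i = v

end BD

/-! ## Block R: the conditions, the cohesive set, the types -/

/-- `W_a` contains almost everything relevant -/
def pT (a : ℕ) : ℕ := Nat.pair 0 a

/-- `W_a` and `W_a'` cover -/
def pS (a a' : ℕ) : ℕ := Nat.pair 1 (Nat.pair a a')

/-- all `(j, y, y')` are in `W_b` -/
def pI (b j y : ℕ) : ℕ := Nat.pair 2 (Nat.pair b (Nat.pair j y))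

/-- `j` is not in the simple set -/
def pN (j : ℕ) : ℕ := Nat.pair 3 j

/-- the `b`-th `Σ_3` set contains `j` according to the truth assignment `tt` -/
def UI (tt : ℕ → Prop) (b j : ℕ) : Prop := ∃ y, tt (pI b j y)

/-- the first `s` of these sets -/
def VV (tt : ℕ → Prop) (s z : ℕ) : ℕ := bv (fun b => UI tt b z) s

/-- the least `z ≥ prev` outside the simple set with the greatest `VV` -/
def lqc (tt : ℕ → Prop) (s prev : ℕ) : ℕ :=
  lst fun z => (prev ≤ z ∧ tt (pN z)) ∧ ∀ z', prev ≤ z' → tt (pN z') → VV tt s z' ≤ VV tt s z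

/-- the cohesive sequence -/
def lq (tt : ℕ → Prop) : ℕ → ℕ
  | 0 => lqc tt 0 0
  | s + 1 => lqc tt (s + 1) (lq tt s + 1)

/-- the type of `k` -/
def typ (T : List (ℕ × ℕ × ℕ)) (tt : ℕ → Prop) (k : ℕ) : Option (ℕ × ℕ × ℕ) :=
  if ∃ s ≤ k, lq tt s = k then T[(lst fun s => lq tt s = k) % T.length]? else none

/-- the permitted classes for a block of type `o`; `m` is the number of labels. Colours `0, ..., 3` belong to the
sets `G_1, ..., G_4`, the colour `4 + q` to the colour `q`. -/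
def alT (m : ℕ) (o : Option (ℕ × ℕ × ℕ)) (l c : ℕ) : Prop :=
  (c = 0 ∧ l + 1 < m ∧ ∃ a, o = some a ∧ l = a.2.1) ∨ (c = 1 ∧ ∃ a, o = some a ∧ l < a.2.1) ∨
  (c = 2 ∧ l + 1 < m ∧ ∃ a, o = some a ∧ l = a.2.2) ∨ (c = 3 ∧ ∃ a, o = some a ∧ l < a.2.2) ∨
  (4 ≤ c ∧ l + 1 = m ∧ ∀ a, o = some a → c ≠ 4 + a.1)

/-- the data: `f` enumerates the maximal set, `Nt z s` says that `z` is in the simple set at stage `s`, `m` labels,
`T` the list of the types -/
structure Cx where
  f : ℕ → ℕ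
  Nt : ℕ → ℕ → Prop
  m : ℕ
  T : List (ℕ × ℕ × ℕ)

namespace Cx

variable (X : Cx)

/-- the maximal set -/
def E : Set ℕ := Set.range X.f

/-- the simple set -/
def N : Set ℕ := {z | ∃ s, X.Nt z s}

/-- the hypotheses on the data -/
structure Ok : Prop where
  fc : Computable X.f
  fi : Function.Injective X.f
  rm : ∀ P : ℕ → Prop, ComputablePred P → {z | z ∉ X.E ∧ ¬ P z}.Finite ∨ {z | z ∉ X.E ∧ P z}.Finite
  ce : {z | z ∉ X.E}.Infinite
  ne : ¬ ComputablePred fun z => z ∈ X.E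
  nc : ComputablePred fun x : ℕ × ℕ => X.Nt x.1 x.2
  nm : ∀ z s s', s ≤ s' → X.Nt z s → X.Nt z s'
  nb : ∀ r, ∃ j, Nat.sqrt j = r ∧ j ∉ X.N
  ns : ∀ W : ℕ → Prop, REPred W → {z | W z}.Infinite → ∃ z, W z ∧ z ∈ X.N
  m0 : 0 < X.m
  T0 : X.T ≠ []
  Tm : ∀ a ∈ X.T, a.2.1 < X.m ∧ a.2.2 < X.m

/-- the `z`-th check for the condition `i` is passed at stage `s` -/
def Ps (i k z s : ℕ) : Prop :=
  (i.unpair.1 = 0 ∧ (Wst i.unpair.2 s (Nat.pair k z) ∨ ∃ t < s, X.f t = z)) ∨
  (i.unpair.1 = 1 ∧ (Wst i.unpair.2.unpair.1 s (Nat.pair k (X.f z)) ∨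
    Wst i.unpair.2.unpair.2 s (Nat.pair k (X.f z)))) ∨
  (i.unpair.1 = 2 ∧ Wst i.unpair.2.unpair.1 s
    (Nat.pair i.unpair.2.unpair.2.unpair.1 (Nat.pair i.unpair.2.unpair.2.unpair.2 z))) ∨
  (2 < i.unpair.1 ∧ ¬ X.Nt i.unpair.2 z)

/-- the counter -/
def cnD (i k s : ℕ) : ℕ := lst fun z => s ≤ z ∨ ¬ X.Ps i k z s

/-- the pre-condition -/
def prD (i k t : ℕ) : Prop := i.unpair.1 = 0 → Wst i.unpair.2 t (Nat.pair k (X.f t))

/-- the decision -/
def dcD (i k t s : ℕ) : ℕ :=
  if i.unpair.1 = 1 then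
    (if ∃ u ≤ s, Wst i.unpair.2.unpair.1 u (Nat.pair k (X.f t)) ∧
        ∀ u' < u, ¬ Wst i.unpair.2.unpair.2 u' (Nat.pair k (X.f t)) then 2
      else if ∃ u ≤ s, Wst i.unpair.2.unpair.2 u (Nat.pair k (X.f t)) then 1 else 0)
  else 1

/-- the permission -/
def alD (k : ℕ) (g : List ℕ) (l c : ℕ) : Prop := alT X.m (typ X.T (fun i => ent g i ≠ 0) k) l c

/-- the construction -/
def B : BD := ⟨X.cnD, X.prD, X.dcD, X.alD, X.m⟩

/-- the true assignment (for the conditions which do not depend on the block) -/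
def TT (i : ℕ) : Prop := X.B.C i 0

/-- the type of `k` -/
def ty (k : ℕ) : Option (ℕ × ℕ × ℕ) := typ X.T X.TT k

/-- the cohesive sequence -/
def ls (s : ℕ) : ℕ := lq X.TT s

/-- for almost all elements `k` of the cohesive set the limit value of `i` for the label `l` is `v` -/
def bet (i l v : ℕ) : Prop := Lg fun s => X.B.lv (X.ls s) l i v

/-- the element of `{0, ..., m - 1}` given by the condition `i` -/
def pix (i : ℕ) : ℕ := lst fun l => l + 1 = X.m ∨ X.bet i l 2

/-! ## Block V: the sets -/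

/-- the piece -/
def bk (k j : ℕ) : Set ℕ := {x | ∃ t, x = Nat.pair k (X.f t) ∧ X.B.inp k j t}

/-- the set `A` -/
def sA : Set ℕ := {x | x.unpair.2 ∈ X.E}

/-- the set `Λ` -/
def sL : Set ℕ := {x | x.unpair.1 ∈ X.N}

/-- the set `D` -/
def sD : Set ℕ := {x | ∃ k j t, x = Nat.pair k (X.f t) ∧
  ((X.B.inp k j t ∧ j ∈ X.N) ∨ X.B.ind k j t)}

/-- the set `Λ'` -/
def sM : Set ℕ := {x | ∃ k j, x ∈ X.bk k j ∧ j ∈ X.N}

/-- the elements of colour `c` -/
def sC (c : ℕ) : Set ℕ := {x | ∃ k j, x ∈ X.bk k j ∧ (pcc j).2.2 = c}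

/-- the elements with label `l` -/
def sB (l : ℕ) : Set ℕ := {x | ∃ k t, x = Nat.pair k (X.f t) ∧ (X.B.th k t).2 = l}

/-- the elements with another label -/
def sB' (l : ℕ) : Set ℕ := {x | ∃ k t, x = Nat.pair k (X.f t) ∧ (X.B.th k t).2 ≠ l}

/-- the block -/
def sS (k : ℕ) : Set ℕ := {x | x.unpair.1 = k}

/-- the condition `i` represents the pair `x, x'` -/
def rep (x x' : CES) (i : ℕ) : Prop := ∃ a a', i = pS a a' ∧ (∀ k t, We a (Nat.pair k (X.f t)) ∨
  We a' (Nat.pair k (X.f t))) ∧ (symmDiff x.1 {z | We a z}).Finite ∧ (symmDiff x'.1 {z | We a' z}).Finite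

/-- the parameters: `p i` is the class of the `i`-th set -/
structure Par (p : ℕ → EStar) : Prop where
  p0 : ∃ h, p 0 = EStar.mk ⟨X.sA ∪ X.sL, h⟩
  p1 : ∃ h, p 1 = EStar.mk ⟨X.sA, h⟩
  p2 : ∃ h, p 2 = EStar.mk ⟨X.sD, h⟩
  p3 : ∃ h, p 3 = EStar.mk ⟨X.sL, h⟩
  p4 : ∃ h, p 4 = EStar.mk ⟨X.sM, h⟩
  pc : ∀ c, ∃ h, p (5 + c) = EStar.mk ⟨X.sC c, h⟩

end Cx

end

end S5
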