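import Pool.Agent.helper96.S5.Asm
import Pool.Agent.helper32.PF.DST

/-!
# MP_0b485e_lc: the `Σ_5`-theory and the `Π_5`-theory of `E*` are undecidable
-/

set_option autoImplicit false

namespace S5

open PF

theorem level_five (b : Bool) : ¬ Dec b := a_FIN a_KEY b

end S5
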