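import Pool.Agent.helper96.S5.Defs

/-!
# MP_0b485e_lc, level 5, Spec L: logic (rows of block L)

`L` is a bounded lattice (later `EStar`). `Rp L n b P`: the property `P` of `δ` (additional relations) and `e`
(values of the free variables) is given by a prenex formula with exactly `n` blocks of quantifiers, the first one of
the kind `b`. The bound variables are numbered from the inside (the innermost one is `0`), then come the free
variables.
-/

set_option autoImplicit false

namespace S5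

open PF

noncomputable section

/-- properties of the relations and of the values of the variables -/
abbrev Pp (L : Type) : Type := (ℕ → L → L → L → L → Prop) → (ℕ → L) → Prop

/-- ROW PRN (short-medium). Renaming of the free variables.
PROOF. `up σ 0 = 0`, `up σ (i + 1) = σ i + 1`; `cns x e ∘ up σ = cns x (e ∘ σ)`. Define the renaming of `Tm`, `Fm`,
`XM` by recursion, `ev (δ) f (μ renamed by τ) ↔ ev δ (f ∘ τ) μ` by induction. By induction on `q`:
`St L q m (e ∘ σ) ↔ St L q (fun f => m (f ∘ up^[q.length] σ)) e`. So the same `q` works, and `μ` is renamed by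
`up^[q.length] σ`. -/
def PRN_stmt : Prop := ∀ (L : Type) [Lattice L] [BoundedOrder L] (n : ℕ) (b : Bool) (P : Pp L) (σ : ℕ → ℕ),
  Rp L n b P → Rp L n b (fun δ e => P δ (fun i => e (σ i)))

/-- ROW PQX (short). One more quantifier in front.
PROOF. `q' = false :: q` (`true :: q`), the same matrix; `St` unfolds; `Pat (n + 1) b (b :: q)` from `Pat n (!b) q` is
clear (`k = 0`), and from `Pat (n + 1) b q` replace `k` by `k + 1` (`List.replicate_succ`). -/
def PQX_stmt : Prop := ∀ (L : Type) [Lattice L] [BoundedOrder L] (n : ℕ) (P : Pp L),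
  (Rp L (n + 1) false P → Rp L (n + 1) false (fun δ e => ∃ x, P δ (cns x e))) ∧
  (Rp L n true P → Rp L (n + 1) false (fun δ e => ∃ x, P δ (cns x e))) ∧
  (Rp L (n + 1) true P → Rp L (n + 1) true (fun δ e => ∀ x, P δ (cns x e))) ∧
  (Rp L n false P → Rp L (n + 1) true (fun δ e => ∀ x, P δ (cns x e)))

/-- ROW PMO (short-medium). More blocks.
PROOF. First `b' = !b`: by PRN `P δ (fun i => e (i + 1))` is `Rp L n b`; put a dummy quantifier of the kind `b'` in
front (PQX; `L` is not empty) and use `cns x e (i + 1) = e i`. Now `b' = b`, by induction on `n`, for all `P, b`: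
`n = 0`: the first case. `n + 1`: `q = replicate (k + 1) b ++ q'`; the property `P'` given by `q', μ` is
`Rp L n (!b)`, so by induction `Rp L (n + 1) (!b)`; now put the `k + 1` quantifiers in front again (PQX; induction on
`k`, `St L (b :: q) m e` unfolds to `St L q m (cns x e)`). (Or: add a dummy innermost quantifier and shift all
variables of `μ` by one, induction on `q`.) -/
def PMO_stmt : Prop := ∀ (L : Type) [Lattice L] [BoundedOrder L] (n : ℕ) (b b' : Bool) (P : Pp L),
  Rp L n b P → Rp L (n + 1) b' P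

/-- ROW PNG (short). Negation.
PROOF. `q' = q.map not`, `μ' = μ.neg`: induction on `q` (`not_forall`, `not_exists`), `Pat n (!b) (q.map not)`. -/
def PNG_stmt : Prop := ∀ (L : Type) [Lattice L] [BoundedOrder L] (n : ℕ) (b : Bool) (P : Pp L),
  Rp L n b P → Rp L n (!b) (fun δ e => ¬ P δ e)

/-- ROW PAO (medium). Conjunction and disjunction.
PROOF. Claim: for all `n, b, q1, q2` with `Pat n b q1`, `Pat n b q2` there are `q` with `Pat n b q` and renamings
`σ1 σ2 : ℕ → ℕ` such that for all `m1 m2 : (ℕ → L) → Prop` and `e1 e2 e`, `τ1 τ2` ... it is convenient to prove it with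
renamed environments: for all `τ1 τ2 : ℕ → ℕ` there are `q, σ1, σ2` with, for all `m1 m2 e`,
`(St L q1 m1 (e ∘ τ1) ∧ St L q2 m2 (e ∘ τ2)) ↔ St L q (fun f => m1 (f ∘ σ1) ∧ m2 (f ∘ σ2)) e`, and the same with `∨`.
Induction on `n` (`n = 0`: `q = []`, `σi = τi`). Step: `q1 = replicate (k1 + 1) b ++ q1'`,
`q2 = replicate (k2 + 1) b ++ q2'`; the new first block has `(k1 + 1) + (k2 + 1)` quantifiers; peel the quantifiers of
`q1` one by one (`∀ x, A x ∧ B` for `L` nonempty, and `(∀ x, A x) ∨ B ↔ ∀ x, A x ∨ B` etc.), changing `τ1` into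
`up τ1` (`cns x (e ∘ τ1) = cns x e ∘ up τ1`) and `τ2` into `(· + 1) ∘ τ2` (`cns x e ∘ (· + 1) ∘ τ2 = e ∘ τ2`), then
those of `q2` in the same way, then apply the induction hypothesis. At the end `m1 = (XM.ev δ · μ1)`,
`f ↦ m1 (f ∘ σ1)` is the evaluation of the renamed `μ1` (rename `Tm, Fm, XM` by recursion). -/
def PAO_stmt : Prop := ∀ (L : Type) [Lattice L] [BoundedOrder L] (n : ℕ) (b : Bool) (P Q : Pp L),
  Rp L n b P → Rp L n b Q → Rp L n b (fun δ e => P δ e ∧ Q δ e) ∧ Rp L n b (fun δ e => P δ e ∨ Q δ e)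

/-- ROW PAT (short). Quantifier-free properties.
PROOF. `n = 0`: `q = []`, `μ = fm φ`, resp. `rl r i1 i2 i3 i4`; then PMO. The last part: `leF`-formulas, i.e.
`a ≤ b ↔ a ⊔ b = b`. -/
def PAT_stmt : Prop := ∀ (L : Type) [Lattice L] [BoundedOrder L] (n : ℕ) (b : Bool),
  (∀ φ : Fm, Rp L n b (fun _ e => φ.Holds e)) ∧
  (∀ r i1 i2 i3 i4 : ℕ, Rp L n b (fun δ e => δ r (e i1) (e i2) (e i3) (e i4))) ∧
  (∀ (pi : ℕ → ℕ) (i1 i2 : ℕ), Rp L n b (fun _ e => Dm (fun i => e (pi i)) (e i1) (e i2))) ∧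
  (∀ s t : Tm, Rp L n b (fun _ e => s.ev e ≤ t.ev e)) ∧ ∀ s t : Tm, Rp L n b (fun _ e => s.ev e = t.ev e)

/-- ROW PLS (short). Finite conjunctions and disjunctions.
PROOF. Induction on the list: PAO, PAT (`True`, `False` are `Holds` of `trF`, `neg trF`). -/
def PLS_stmt : Prop := ∀ (L : Type) [Lattice L] [BoundedOrder L] (n : ℕ) (b : Bool) (α : Type) (l : List α)
  (P : α → Pp L), (∀ a ∈ l, Rp L n b (P a)) →
  Rp L n b (fun δ e => ∀ a ∈ l, P a δ e) ∧ Rp L n b (fun δ e => ∃ a ∈ l, P a δ e)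

/-- ROW LPX (short). Only finitely many variables matter.
PROOF. A matrix contains only variables `< K` (induction: `Tm`, `Fm`, `XM`), so its value depends only on `e i`,
`i < K`; by induction on `q` the same for `St L q m` (`cns x e`, `cns x e'` agree below `K` if `e, e'` do). -/
def LPX_stmt : Prop := ∀ (L : Type) [Lattice L] [BoundedOrder L] (n : ℕ) (b : Bool) (P : Pp L), Rp L n b P →
  ∃ K : ℕ, ∀ δ e e', (∀ i < K, e i = e' i) → (P δ e ↔ P δ e')

/-- ROW AXQ (short-medium). Quantification over infinite sequences.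
PROOF. `K` from LPX for `P`. `σ i = if i % 2 = 0 then (if i / 2 < K then i / 2 else 0) else K + i / 2`. By PRN
`P' δ f := P δ (f ∘ σ)` has the same complexity. Applying PQX `K` times (induction on `K`):
`fun δ e => ∀ v : ℕ → L, P' δ (fun i => if i < K then v i else e (i - K))` is `Rp L (n + 1) true`. This is
`∀ v, P δ (ilv v e)`: the two arguments agree below `K` (for `i < K` even, `i / 2 < K`). The same for `∃`. -/
def AXQ_stmt : Prop := ∀ (L : Type) [Lattice L] [BoundedOrder L] (n : ℕ) (P : Pp L),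
  (Rp L (n + 1) true P → Rp L (n + 1) true (fun δ e => ∀ v : ℕ → L, P δ (ilv v e))) ∧
  (Rp L (n + 1) false P → Rp L (n + 1) false (fun δ e => ∃ v : ℕ → L, P δ (ilv v e)))

/-- ROW RJY (short). `Jm` and `Yy` are `Σ_1`.
PROOF. `Jm`: two quantifiers in front of a quantifier-free formula: with `e' = cns R1 (cns R' e)` the matrix is a
conjunction of equations between terms; `t.ev e` is the value of the term `t` with all variables shifted by 2 in
`e'` (or apply PRN to get the shift: the property `R ⊔ R' = ⊤ ∧ ...` as `fm φ`). PQX, PAT. -/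
def RJY_stmt : Prop := ∀ (L : Type) [Lattice L] [BoundedOrder L] (pi : ℕ → ℕ) (t : Tm),
  Rp L 1 false (fun _ e => Jm (fun i => e (pi i)) (t.ev e)) ∧
  Rp L 1 false (fun _ e => Yy (fun i => e (pi i)) (t.ev e))

/-- ROW RKS (short-medium). `Ks` is `Σ_2`.
PROOF. `∃ Y, Yy Y ∧ ∀ Y', ¬ Yy Y' ∨ ¬ (Y' ⊓ Y ≤ p 2) ∨ Y' ⊓ w ≤ p 2`. RJY gives `Yy` of the variable `0` with the
index function `pi + 1` (or `+ 2`), PNG, PAT, PAO: the part after `∀ Y'` is `Rp L 1 true`, so with `∀ Y'` too (PQX); `Yy Y`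
is `Rp L 1 false`, both are `Rp L 2 false` (PMO), PAO, PQX. Shift the term `t` as in RJY. -/
def RKS_stmt : Prop := ∀ (L : Type) [Lattice L] [BoundedOrder L] (pi : ℕ → ℕ) (t : Tm),
  Rp L 2 false (fun _ e => Ks (fun i => e (pi i)) (t.ev e))

/-- ROW REC (short-medium). `EC` is `Π_3`.
PROOF. After `∀ R`: `¬ Jm R` is `Rp L 1 true`, so `Rp L 2 false` (PMO); `∃ R', ...` is `Rp L 2 false`: `Jm R'` (RJY, PMO),
`R ⊓ R' = ⊥`, `¬ R' ≤ p 0` (PAT), five times `Ks` of a term (RKS with the index function `pi + 2` and terms such as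
`(var (i2 + 2)) ⊓ (var (pi 5 + 2)) ⊓ (var 0)`), PAO, PQX. Together `Rp L 2 false`, then `∀ R` gives `Rp L 3 true`. -/
def REC_stmt : Prop := ∀ (L : Type) [Lattice L] [BoundedOrder L] (pi : ℕ → ℕ) (c i1 i2 i3 i4 : ℕ),
  Rp L 3 true (fun _ e => EC (fun i => e (pi i)) c (e i1) (e i2) (e i3) (e i4))

/-- ROW RRU (short-medium). The translation of a rule is `Π_4`.
PROOF. `P δ e' := RuF h (fun i => e' (2 * i)) (fun i => e' (2 * i + 1))` is `Rp L 3 false`:
`¬ (∀ i ∈ hvr h, Dm ..) ∨ (∃ a ∈ h.1, ¬ EC ..) ∨ ∃ a ∈ h.2.toList, ¬ EC ..` (REC, PNG, PLS, PAT, PAO), so `Rp L 4 true`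
(PMO). AXQ, and `ilv v e (2 * i) = v i`, `ilv v e (2 * i + 1) = e i`. -/
def RRU_stmt : Prop := ∀ (L : Type) [Lattice L] [BoundedOrder L] (h : HR),
  Rp L 4 true (fun _ e => ∀ v : ℕ → L, RuF h v e)

/-- ROW RBD (medium). The body is `Π_4`, the whole sentence `Σ_5`.
PROOF. Five conjuncts (PAO). 1: PAT. 2: `∀ x x' y y'` (PQX four times, the variables are `3, 2, 1, 0`, the
parameters `pi i = i + 4`), `¬ Dm ∨ ¬ Dm ∨ EC ∨ EC` is `Rp L 3 true`, so with the quantifiers, then PMO; PLS over
`List.range R`. 3: RRU, PLS. 4: `∀ x x', ¬ Dm ∨ ∃ y y', Dm ∧ ¬ EC`: the part after `∀ x x'` is `Rp L 3 false`, so `Rp L 4 true`.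
5: `∀ x x' y y', ¬ δ (r + 1) .. ∨ ¬ EC ..`: after the quantifiers `Rp L 3 false`; PLS. Second part: by PRN
`P δ e := Bd R rules s δ (fun i => e (2 * i))` is `Rp L 4 true`, so `Rp L 5 false` (PMO); AXQ, `ilv v e (2 * i) = v i`. -/
def RBD_stmt : Prop := ∀ (L : Type) [Lattice L] [BoundedOrder L] (R : ℕ) (rules : List HR) (s : ℕ),
  Rp L 5 false (fun δ _ => ∃ p : ℕ → L, Bd R rules s δ p)

/-- ROW SBX (short-medium). The matrix `xsb` says what it should say.
PROOF. Induction on `μ`. `fm φ`: `(tsb N t).ev f = t.ev (fun i => if i < N then f i else ⊥)` by induction. `rl`: cases on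
`r`; `(anL l).Holds f ↔ ∀ φ ∈ l, φ.Holds f`, `(orL l).Holds f ↔ ∃ φ ∈ l, φ.Holds f` by induction on `l`;
`(leF a b).Holds f ↔ a.ev f ≤ b.ev f` (`sup_eq_right`). -/
def SBX_stmt : Prop := ∀ (L : Type) [Lattice L] [BoundedOrder L] (N : ℕ) (gr : List At) (M : ℕ) (μ : XM)
  (f : ℕ → L), (xsb N gr M μ).Holds f ↔
    XM.ev (dl gr M (fun i => f (N + i))) (fun i => if i < N then f i else ⊥) μ

/-- ROW CLX (short). The matrix is closed.
PROOF. Induction on `μ`: a variable of `tsb N t` is `< N`; in `dF` the variables are those of `vb N i` and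
`N + 2 a`, `N + (2 a + 1)` with `a ≤ M`. -/
def CLX_stmt : Prop := ∀ (N : ℕ) (gr : List At) (M : ℕ) (μ : XM), (∀ a ∈ gr, a.2.1 ≤ M ∧ a.2.2 ≤ M) →
  clo (N + (2 * M + 2)) (xsb N gr M μ)

/-- ROW STC (medium). The string of the matrix is computable.
PROOF. Induction on `μ`. `fm`: constant. `neg, and, or`: appends. `rl`, `r = 0`: `(anL l).str` is
`(l.map Fm.str).flatten ++ trF.str ++ List.replicate l.length 6` (induction on `l`); so the string is
`((List.range (M n + 1)).flatMap F) ++ trF.str ++ (replicate)` with a primitive recursive `F : ℕ → List ℕ` (constants and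
`8 + (N + 2 a)`, `8 + (N + (2 a + 1))`); use `Computable` / `Primrec.list_flatMap`, `Primrec.list_map`, `Primrec.list_range`
(a replicate is the map of a constant over `List.range`). `r + 1`: the same with `gr n` and an `if` (`Primrec.ite`), end
symbol `7`. -/
def STC_stmt : Prop := ∀ (N : ℕ) (μ : XM) (gr : ℕ → List At) (M : ℕ → ℕ), Computable gr → Computable M →
  Computable fun n => (xsb N (gr n) (M n) μ).str

/-- ROW SEN (medium). The sentences.
PROOF. `N = q.length`, `Q n = List.replicate (2 * M n + 2) false ++ q`, `Φ n = xsb N (gr n) (M n) μ`. `Pat 5 false (Q n)`: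
merge the first block. Closed: CLX. Computable: STC; `replicate` is the map of a constant over `List.range`. Truth:
(a) `Sat L q φ l ↔ St L q (fun f => φ.Holds f) (fun i => l.getD i ⊥)` (induction on `q`;
`(x :: l).getD · ⊥ = cns x (l.getD · ⊥)`), (b) `Sat L (replicate k false ++ q) φ l ↔ ∃ l', l'.length = k ∧
Sat L q φ (l' ++ l)`, (c) `St L q m e ↔ St L q (fun f => m' f) e'` if `m f ↔ m' f'` whenever `f, f'` agree below `N` and
`f (N + i) = e i`, `f' (N + i) = e' i` (induction on `q`). By SBX: `Sat L (Q n) (Φ n) []` holds iff there is a list `l'` of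
length `2 M + 2` such that `St L q (ev (dl gr M (l'.getD · ⊥))) (fun _ => ⊥)` (the matrix of SBX replaces the variables
`≥ N` by `⊥`). Given `c`, take `l' = [c 0, ..., c (2 M + 1)]`: `dl gr M c` depends only on `c i`, `i < 2 M + 2`. -/
def SEN_stmt : Prop := ∀ (L : Type) [Lattice L] [BoundedOrder L] (q : List Bool) (μ : XM) (gr : ℕ → List At)
  (M : ℕ → ℕ), Pat 5 false q → Computable gr → Computable M →
  (∀ n, ∀ a ∈ gr n, a.2.1 ≤ M n ∧ a.2.2 ≤ M n) →
  ∃ (Q : ℕ → List Bool) (Φ : ℕ → Fm), Computable Q ∧ (Computable fun n => (Φ n).str) ∧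
    ∀ n, Pat 5 false (Q n) ∧ clo (Q n).length (Φ n) ∧ (Sat L (Q n) (Φ n) [] ↔
      ∃ c : ℕ → L, St L q (fun f => XM.ev (dl (gr n) (M n) c) f μ) (fun _ => ⊥))

/-- the fragment with 5 blocks, the first of the kind `b`, is decidable -/
def Dec (b : Bool) : Prop := ∃ P : List Bool × List ℕ → Prop, ComputablePred P ∧
  ∀ (q : List Bool) (φ : Fm), Pat 5 b q → clo q.length φ → (P (q, φ.str) ↔ Sat EStar q φ [])

/-- ROW NEG (short). If the `Π_5`-theory were decidable, the `Σ_5`-theory would be.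
PROOF. `P' (q, s) := ¬ P (q.map not, s ++ [5])`; computable (`Primrec.list_map`, append). `(Fm.neg φ).str = φ.str ++ [5]`,
`Sat L (q.map not) (neg φ) e ↔ ¬ Sat L q φ e` (induction on `q`), `Pat 5 false q → Pat 5 true (q.map not)`. -/
def NEG_stmt : Prop := Dec true → Dec false

/-- ROW SNI (short-medium). A true sentence gives a model.
PROOF. `X = {x : L × L // Dm p x.1 x.2}`, `ρ r x y := ¬ EC p (10 + 2 * r) x.1.1 x.1.2 y.1.1 y.1.2`. By `δ 0`, the pairs
`(c (2 a), c (2 a + 1))`, `a ≤ M`, are in `X`; `c' a` = this pair for `a ≤ M`, and the pair for `a = 0` otherwise. Rules: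
for `v : ℕ → X` use `v' i = (v (i / 2)).1.1` for even, `.1.2` for odd `i`; if all hypotheses hold, i.e. not `EC (10 + 2 r)`,
then `EC (9 + 2 r)` by the second conjunct (`r < R` by `HOk`), so the first alternative of `RuF` is false, and the second one
gives the conclusion (`Option.mem_toList`). Totality: fourth conjunct. Atoms: the fifth conjunct with
`r = a.1`, `dl .. (r + 1)` of the four constants holds. -/
def SNI_stmt : Prop := ∀ (L : Type) [Lattice L] [BoundedOrder L] (R : ℕ) (rules : List HR) (s : ℕ)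
  (gr : List At) (M : ℕ) (c p : ℕ → L), (∀ h ∈ rules, HOk R h) →
  (∀ a ∈ gr, a.1 < R ∧ a.2.1 ≤ M ∧ a.2.2 ≤ M) → Bd R rules s (dl gr M c) p →
  ∃ (X : Type) (ρ : ℕ → X → X → Prop) (c' : ℕ → X), Mdl rules s gr ρ c'

/-- ROW CPI (short-medium). A finite model makes the sentence true.
PROOF. `KeyP` with `m = N + 1`, `R > s ≥ 0`. `c (2 a), c (2 a + 1)` = the components of a pair in the domain with
`π = c' a` (surjectivity). `δ 0`: these pairs are in the domain. 2: `EC (9 + 2 r) ↔ ρ`, `EC (10 + 2 r) ↔ ¬ ρ`. Rules: given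
`v` with `Dm` for all variables of the rule, let `w i = π (v (2 i), v (2 i + 1))` if this pair is in the domain, `0`
otherwise; if the first alternative fails, then `EC (9 + 2 r)` holds for all hypotheses, so they hold in the model, so
does the conclusion `ρ r ..`, hence `¬ EC (10 + 2 r)`. 4: totality of `ρ s` and surjectivity. 5: the atom `a` holds in the
model: `ρ r (c' ..) (c' ..)`, so `¬ EC (10 + 2 r)`. -/
def CPI_stmt : Prop := ∀ (L : Type) [Lattice L] [BoundedOrder L], KeyP L → ∀ (R : ℕ) (rules : List HR)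
  (s : ℕ) (gr : List At) (M : ℕ), (∀ h ∈ rules, HOk R h) → s < R →
  (∀ a ∈ gr, a.1 < R ∧ a.2.1 ≤ M ∧ a.2.2 ≤ M) →
  ∀ (N : ℕ) (ρ : ℕ → Fin (N + 1) → Fin (N + 1) → Prop) (c' : ℕ → Fin (N + 1)), Mdl rules s gr ρ c' →
  ∃ c p : ℕ → L, Bd R rules s (dl gr M c) p

end

end S5
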