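import Pool.Agent.helper96.S5.Basic

/-!
# MP_0b485e_lc, level 5, Spec R: the construction in one block (rows of block R)

Basic lemmas (`lst_spec, lst_le, lst_unique, exists_min, amo_succ, sel_succ, hst_succ, hst_count_succ, hst_count_mono,
hst_count_const, hst_count_unb, Wst_mono, Wst_computable, We_surj, We_re, tkc_surj, pcc_surj, pcc_enc, tkc_computable,
pcc_computable, ent_computable, cp_ite, cp_lst`) are proved in `Basic.lean`, tools for `REPred` and `ComputablePred`
(`re_and re_or re_comp re_ex cp_and cp_or cp_not cp_comp cp_ball cp_bex cp_eq cp_lt cp_le cp_const R3_iff`) in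
`Pool.Agent.helper88.PF.Re` (namespace `PF`).
-/

set_option autoImplicit false

namespace S5

open PF

noncomputable section

open Classical

/-! ## The abstract construction -/

/-- ROW FAI (short-medium). Fairness of the selection.
PROOF. Suppose `n + 1` is not selected after `t0`; then `(hst A t).count (n + 1) = c` for `t ≥ t0` (`hst_count_const`). At
each of the infinitely many `t ≥ t0` with `A t (hst A t) n` the selected number is `n' + 1` with
`n' + count (n' + 1) ≤ n + c` (`amo_succ`; it is not `0` by `amo_ne_zero`). Let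
`Φ t = ∑ n' ∈ range (n + c + 1), min ((hst A t).count (n' + 1)) (n + c + 1)`: nondecreasing in `t` (`hst_count_mono`), at most
`(n + c + 1)^2`, and at each such `t` it increases by at least `1` (the term of `n'`, whose count is `≤ n + c`, increases by
one, `hst_count_succ`). Contradiction. -/
def FAI_stmt : Prop := ∀ (A : ℕ → List ℕ → ℕ → Prop) (n : ℕ),
  (∀ t0, ∃ t, t0 ≤ t ∧ A t (hst A t) n) → ∀ t0, ∃ t, t0 ≤ t ∧ sel A t = n + 1

/-- ROW CHS (medium). The selections are computable.
PROOF. `(k, t, H) ↦ amo (A k t H) H` is computable: `∃ n, A k t H n` is equivalent to a bounded quantifier (`n ≤ bd`), so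
decidable (`cp_bex`). In the `lst` the condition `∀ n', A n' → ..` can be bounded by `n' ≤ n + H.count (n + 1)` (a greater
`n'` satisfies the inequality anyway), so it is decidable (`cp_ball`; `(H, n) ↦ H.count n` is computable: fold or
`filter` and `length`), and a solution, if there is one, is `≤ bd + H.length` (the minimal weight is at most
`n' + H.count (n' + 1) ≤ bd + H.length`); so `cp_lst` applies. `cp_ite`. Then `hst` by `Computable.nat_rec`. -/
def CHS_stmt : Prop := ∀ (A : ℕ → ℕ → List ℕ → ℕ → Prop) (bd : (ℕ × ℕ) × List ℕ → ℕ),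
  (ComputablePred fun x : ((ℕ × ℕ) × List ℕ) × ℕ => A x.1.1.1 x.1.1.2 x.1.2 x.2) → Computable bd →
  (∀ k t H, (∃ n, A k t H n) → ∃ n, n ≤ bd ((k, t), H) ∧ A k t H n) →
  (Computable fun x : ℕ × ℕ => hst (A x.1) x.2) ∧ Computable fun x : ℕ × ℕ => sel (A x.1) x.2

/-- ROW CTH (short-medium). Tickets are computable.
PROOF. CHS for `B.tA`; the bound is the constant `encode ([], 0)` (this ticket is always admissible as `0 < B.lam`).
`B.tA` is decidable: `cp_lt`, `cp_ball` (`i < (tkc n).1.length`), `B.pr` by `Cp.pr`, `tkc_computable`, `ent_computable`. Then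
`tkc (sel .. - 1)`. -/
def CTH_stmt : Prop := ∀ B : BD, B.Cp → 0 < B.lam → Computable fun x : ℕ × ℕ => B.th x.1 x.2

/-- ROW CPR (medium). The events of processing are decidable.
PROOF. From CTH by `cp_and, cp_not, cp_ball, cp_bex, cp_eq, cp_lt`, `cp_ite`; all quantifiers are bounded
(`i < length`, `s' < u.unpair.1`, `i' < i`). -/
def CPR_stmt : Prop := ∀ B : BD, B.Cp → 0 < B.lam → (ComputablePred fun x : ℕ × ℕ => B.prc x.1 x.2) ∧
  (ComputablePred fun x : (ℕ × ℕ) × List ℕ × ℕ => B.fit x.1.1 x.1.2 x.2.1 x.2.2) ∧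
  ComputablePred fun x : (ℕ × ℕ) × List ℕ × ℕ => B.big x.1.1 x.1.2 x.2.1 x.2.2

/-- ROW CAS (short-medium). The choices and the dump events are computable.
PROOF. CHS for `B.pA` with the bound `u` (a candidate is `< u`); `B.pA` is decidable by CPR, `Cp.al`, `Cp.cn`, `pcc_computable`,
computability of `List.count`. `dmp`: `cp_or`, `cp_bex`, CPR. -/
def CAS_stmt : Prop := ∀ B : BD, B.Cp → 0 < B.lam → (Computable fun x : ℕ × ℕ => B.asg x.1 x.2) ∧
  ComputablePred fun x : (ℕ × ℕ) × ℕ => B.dmp x.1.1 x.1.2 x.2

/-- ROW DIS (short). Every element is in at most one piece; and what is chosen is a candidate.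
PROOF. `asg k u = j + 1` gives `B.pA k u _ j` (`sel_succ`), so `B.fit`, so `B.prc k u`. If `asg k (s, t) = j + 1` and
`asg k (s', t) = j' + 1`, then `s` and `s'` are the least stages at which `t` is ready, so `s = s'`, `j = j'`
(`Nat.unpair_pair`). -/
def DIS_stmt : Prop := ∀ (B : BD) (k : ℕ),
  (∀ j j' t s s', B.asg k (Nat.pair s t) = j + 1 → B.asg k (Nat.pair s' t) = j' + 1 → s = s' ∧ j = j') ∧
  ∀ j u, B.asg k u = j + 1 → B.pA k u (hst (B.pA k) u) j ∧ B.prc k u

/-- ROW TKF (short-medium). Every permanently admissible ticket is given infinitely often.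
PROOF. `n` with `tkc n = (h, l)` (`tkc_surj`). By `Gd.h1` for the list of the `i < h.length` with `ent h i ≠ 0`, the ticket `n` is
admissible at infinitely many `t`. FAI: `sel (B.tA k) t = n + 1` at infinitely many `t`. -/
def TKF_stmt : Prop := ∀ (B : BD) (k : ℕ), B.Gd k → ∀ (h : List ℕ) (l : ℕ), l < B.lam →
  (∀ i < h.length, ent h i ≠ 0 → B.C i k) → ∀ t0, ∃ t, t0 ≤ t ∧ B.th k t = (h, l)

/-- ROW PRX (short-medium). Elements whose ticket contains only true conditions are processed.
PROOF. For each `i < length` with entry `≠ 0` there is a stage with `dc ≠ 0` (`Gd.h2`), and this is permanent (`Gd.dcp`), so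
there is `s > t` such that all these `dc i k t s ≠ 0`: `t` is ready at `s`; take the least such `s` (`Nat.find`). -/
def PRX_stmt : Prop := ∀ (B : BD) (k : ℕ), B.Gd k → ∀ t,
  (∀ i < (B.th k t).1.length, ent (B.th k t).1 i ≠ 0 → B.C i k) → ∃ s, B.prc k (Nat.pair s t)

/-- ROW RSX (medium). Right strings exist.
PROOF. Let `h i = 1` if `B.C i k`, `0` otherwise, for `i < n`, as a list. By TKF and PRX there are infinitely many `u` (infinitely
many `t`, so infinitely many `u = (s, t) ≥ t`) such that an element with the ticket `(h, l)` is processed at step `u`;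
its values are `0` where `h i = 0`, and `1` or `2` (nonzero since it is ready, `Gd.dc2`) where `h i = 1`. So it fits some
`g` of the finite set `G` of all lists of length `n` with entries `≤ 2` and the zero pattern of `h`. So some `g ∈ G` is fitted
infinitely often (with the label `l`; pigeonhole); take the lexicographically greatest such `g` (e.g. the greatest value of
`∑ i < n, ent g i * 3^(n - 1 - i)`, which is lexicographic order for entries `≤ 2`). If infinitely many `u` were `big` for
`g`, then, as the values of a processed element are `≤ 2`, infinitely many of them fit the same `g' ∈ G` (pigeonhole), which is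
greater than `g`: contradiction. -/
def RSX_stmt : Prop := ∀ (B : BD) (k : ℕ), B.Gd k → ∀ l, l < B.lam → ∀ n, ∃ g, g.length = n ∧ B.RS k g l

/-- ROW RSM (short-medium). Longer right strings are smaller; entries; labels.
PROOF. (1) If `ent g i < ent g' i` and `ent g i' = ent g' i'` for `i' < i`, `i < g.length ≤ g'.length`: the zero patterns of `g`
and `g'` agree below `g.length` (both are given by `B.C`), so every `u` which fits `g', l` is `big` for `g, l`;
infinitely many, against `RS k g l`. (2) Entries of a fitted string are values of `vl`, so `≤ 2` by `Gd.dc2`. (3) The label of a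
ticket is `< B.lam`: `B.th k t = tkc (sel .. - 1)`, and `sel (B.tA k) t ≠ 0` (the ticket `([], 0)` is admissible), so it is
admissible. -/
def RSM_stmt : Prop := ∀ (B : BD) (k : ℕ), B.Gd k → ∀ (g g' : List ℕ) (l : ℕ), B.RS k g l →
  (B.RS k g' l → g.length ≤ g'.length →
    ¬ ∃ i < g.length, ent g i < ent g' i ∧ ∀ i' < i, ent g i' = ent g' i') ∧
  (∀ i, ent g i ≤ 2) ∧ l < B.lam

/-- ROW RSU (short). Uniqueness of the right string of given length.
PROOF. If `g ≠ g'` have the same length, take the least `i` with `ent g i ≠ ent g' i` (`List.ext_getElem`) and apply RSM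
to `g, g'` or to `g', g`. -/
def RSU_stmt : Prop := ∀ (B : BD) (k : ℕ), B.Gd k → ∀ (g g' : List ℕ) (l : ℕ), B.RS k g l → B.RS k g' l →
  g.length = g'.length → g = g'

/-- ROW VLX (medium). The limit values exist and are determined by the set of the attained initial segments.
PROOF. For `n ≥ i + 1` let `a n` be the right string of length `n` (RSX, RSU) cut to the length `i + 1`. By RSM (applied to
`n ≤ n'`), `a n'` is not lexicographically greater than `a n`; with the number
`N (a) = ∑ j < i + 1, ent a j * 3^(i - j)` (entries `≤ 2`) this says `N (a n') ≤ N (a n)` (strings which are equal up to a first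
difference). So `N (a n)` is eventually constant, equal to the minimum of `N` on the set
`S k = {g0 | g0.length = i + 1 ∧ ∃ g, B.RS k g l ∧ g0 <+: g}` (`g0 <+: g` with length `i + 1` means `g0 = a g.length`), and so is
`a n` (`N` is injective on lists of length `i + 1` with entries `≤ 2`). First part: the limit entry is `≠ 0` if `B.C i k`,
so it is `1` or `2`. Second part: `S k = S k'` have the same minimum, so the same limit, and the limit entry `v` is determined
(there are right strings of all lengths). -/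
def VLX_stmt : Prop := ∀ (B : BD) (k : ℕ), B.Gd k → ∀ (l : ℕ), l < B.lam → ∀ i : ℕ,
  (B.C i k → B.lv k l i 1 ∨ B.lv k l i 2) ∧
  (∀ v v', B.lv k l i v → B.lv k l i v' → v = v') ∧
  ∀ k', B.Gd k' → (∀ g0 : List ℕ, g0.length = i + 1 →
    ((∃ g, B.RS k g l ∧ g0 <+: g) ↔ ∃ g, B.RS k' g l ∧ g0 <+: g)) → ∀ v, B.lv k l i v → B.lv k' l i v

/-- ROW FED (short-medium). A permitted right piece is fed infinitely often.
PROOF. Suppose `asg k u ≠ j + 1` for `u ≥ u0`; then `count (j + 1)` is constant `= c` for `u ≥ u0` (`hst_count_const`). For the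
infinitely many `u` which fit `g = (pcc j).1`, `l = (pcc j).2.1`, large enough (`j < u`, `c < u`, `c < B.cn i k u` for all
`i < g.length` with `ent g i ≠ 0`: `B.C i k` holds, and `cn` is monotone by `Gd.mono`), `j` is a candidate. By FAI it is chosen
infinitely often, contradiction. -/
def FED_stmt : Prop := ∀ (B : BD) (k : ℕ), B.Gd k → ∀ j, B.RS k (pcc j).1 (pcc j).2.1 →
  B.al k (pcc j).1 (pcc j).2.1 (pcc j).2.2 → ∀ u0, ∃ u, u0 ≤ u ∧ B.asg k u = j + 1

/-- ROW DMW (short-medium). Right pieces have finitely many dump events; for the other pieces there are infinitely many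
dump events, or they get finitely many elements.
PROOF. (1) For `i < g.length` with `ent g i = 0` the condition fails, so `cn i k` is bounded, and a bounded monotone sequence
increases only finitely often; finitely many `big` by definition. (2) Not right: (a) some `i` with `ent g i = 0` and
`B.C i k`: `cn i k` is unbounded, so it increases infinitely often: dump events; (b) some `i` with `ent g i ≠ 0`, not
`B.C i k`: `cn i k u ≤ z` for all `u`; every choice of `j` needs `count (j + 1) < cn i k u ≤ z` (DIS), so by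
`hst_count_unb` `j` is not chosen infinitely often; (c) not infinitely many fits: the choice of `j` needs a fit (DIS);
(d) infinitely many `big`: dump events. -/
def DMW_stmt : Prop := ∀ (B : BD) (k : ℕ), B.Gd k → ∀ j,
  (B.RS k (pcc j).1 (pcc j).2.1 → ∃ u0, ∀ u, u0 ≤ u → ¬ B.dmp k u j) ∧
  (¬ B.RS k (pcc j).1 (pcc j).2.1 →
    (∃ u0, ∀ u, u0 ≤ u → B.asg k u ≠ j + 1) ∨ ∀ u0, ∃ u, u0 ≤ u ∧ B.dmp k u j)

/-- ROW RS3 (short-medium). `RS` is `Σ_3`.
PROOF. `RS k g l` holds iff there are `w = (b1, b2)` such that for all `y`: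
`(∀ i < g.length, ent g i ≠ 0 → ∃ s, y < B.cn i k s) ∧ (∀ i < g.length, ent g i = 0 → B.cn i k y ≤ b1) ∧ (∃ u, y ≤ u ∧ B.fit k u g l)
∧ (b2 ≤ y → ¬ B.big k y g l)`. The matrix is r.e. (`re_and, re_or, re_ex`, `R2_ball` for the bounded quantifier,
`ComputablePred.to_re`, CPR). -/
def RS3_stmt : Prop := ∀ B : BD, B.Cp → 0 < B.lam → ∃ Φ : (ℕ × List ℕ × ℕ) × ℕ × ℕ → Prop, REPred Φ ∧
  ∀ k g l, B.RS k g l ↔ ∃ w, ∀ y, Φ ((k, g, l), (w, y))

/-- ROW S3U (short-medium). An index in the list of the `Σ_3` sets.
PROOF. `(∃ g, RS k g l ∧ g0 <+: g) ↔ ∃ y, ∀ y', Ψ (k, (y, y'))` with `y = Nat.pair (encode g) w`: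
`Ψ := g0 <+: g ∧ Φ ((k, g, l), (w, y'))`, `g = (decode y.unpair.1).getD []`, r.e. (`g0 <+: g` is decidable: `g.take g0.length = g0`).
`We_surj` for the r.e. set `{x | Ψ (x.unpair.1, (x.unpair.2.unpair.1, x.unpair.2.unpair.2))}`. -/
def S3U_stmt : Prop := ∀ B : BD, B.Cp → 0 < B.lam → ∀ (l : ℕ) (g0 : List ℕ), ∃ b, ∀ k,
  (∃ g, B.RS k g l ∧ g0 <+: g) ↔ ∃ y, ∀ y', We b (Nat.pair k (Nat.pair y y'))

/-! ## The cohesive sequence -/

/-- ROW LQI (short). Only the relevant conditions matter.
PROOF. `VV tt s z = VV tt' s z` (induction on `s`), so the predicates in `lqc` are equivalent (`lst_congr`); induction on `s`. -/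
def LQI_stmt : Prop := ∀ tt tt' : ℕ → Prop, (∀ b j y, tt (pI b j y) ↔ tt' (pI b j y)) →
  (∀ z, tt (pN z) ↔ tt' (pN z)) → ∀ s, lq tt s = lq tt' s

/-- ROW LQS (short). Properties of the sequence.
PROOF. `VV tt s z < 2^s`; so for every `prev` there is `z ≥ prev`, `tt (pN z)`, with the greatest `VV tt s z` (a nonempty set of
bounded numbers has a maximum), so `lst_spec` applies. -/
def LQS_stmt : Prop := ∀ tt : ℕ → Prop, (∀ z0, ∃ z, z0 ≤ z ∧ tt (pN z)) → ∀ s,
  tt (pN (lq tt s)) ∧ lq tt s < lq tt (s + 1) ∧
  ∀ z, lq tt s < z → tt (pN z) → VV tt (s + 1) z ≤ VV tt (s + 1) (lq tt (s + 1))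

/-- ROW COH (medium). The sequence is cohesive for the sets `UI tt b`.
PROOF. By induction on `b`: `VV tt b (lq tt s)` is constant `= v` for all large `s`. `b = 0`: clear. Step: let it be `v` for
`s ≥ s0`. `VV tt (b + 1) z = 2 VV tt b z + [UI tt b z]`. Case 1: infinitely many `z` with `tt (pN z)` have
`VV tt (b + 1) z = 2 v + 1`. For `s ≥ s0, b`: there is such a `z > lq tt s`, so by LQS
`VV tt (s + 1) (lq tt (s + 1)) ≥ VV tt (s + 1) z`, and dropping the last binary digits
(`VV tt (b + 1) z = VV tt (s + 1) z / 2^(s - b)`) `VV tt (b + 1) (lq tt (s + 1)) ≥ 2 v + 1`; as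
`VV tt b (lq tt (s + 1)) = v`, equality. Case 2: only finitely many; as `lq` is strictly increasing, for all large `s` the
value at `lq tt s` is not `2 v + 1`, so it is `2 v`. Then read off the last digit. -/
def COH_stmt : Prop := ∀ tt : ℕ → Prop, (∀ z0, ∃ z, z0 ≤ z ∧ tt (pN z)) → ∀ b,
  (Lg fun s => UI tt b (lq tt s)) ∨ Lg fun s => ¬ UI tt b (lq tt s)

/-- ROW LQC (short-medium). Approximation of the sequence.
PROOF. Write `tn i := i < n ∧ tt i`. Induction on `s`; for large `n` the argument `prev` of `lqc` is the right one. Let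
`z1 = lqc tt s prev`. For `n > pN z1` and `n >` one witness `pI b z1 y` for each `b < s` with `UI tt b z1` we have
`VV tn s z1 = VV tt s z1`. For `z ≥ prev` with `tn (pN z)`: `VV tn s z ≤ VV tt s z ≤ VV tt s z1 = VV tn s z1` (`bv` is monotone in the
predicate; LQS or `lst_spec` for the maximality of `z1`), so `z1` is maximal for `tn`; and if `z` is maximal for
`tn` too, then equality holds, so `z` is maximal for `tt` and `z1 ≤ z`. `lst_unique`. -/
def LQC_stmt : Prop := ∀ tt : ℕ → Prop, (∀ z0, ∃ z, z0 ≤ z ∧ tt (pN z)) → ∀ s,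
  Lg fun n => lq (fun i => i < n ∧ tt i) s = lq tt s

/-- ROW LQM (medium). Computability of the approximations.
PROOF. `tt i := ent g i ≠ 0` implies `i < g.length`. `UI tt b j ↔ ∃ y < g.length, ent g (pI b j y) ≠ 0` (`pI b j y ≥ y`), decidable in
`(g, b, j)`; `VV tt s z = bv ..` by `Computable.nat_rec` (and `cp_ite`), computable in `(g, s, z)`. In `lqc`: candidates satisfy
`z ≤ pN z < g.length`, so the quantifier over `z'` is bounded by `g.length`, and `cp_lst` applies with the bound `g.length`.
Then `lq` by `Computable.nat_rec`. -/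
def LQM_stmt : Prop := Computable fun x : List ℕ × ℕ => lq (fun i => ent x.1 i ≠ 0) x.2

/-! ## Simple and maximal sets -/

/-- ROW SMB (medium). The simple set.
PROOF. `F e s := ∃ x ≤ s, e < Nat.sqrt x ∧ Wst e s x` (decidable). `Nt x s := ∃ e < Nat.sqrt x, ∃ s' ≤ s, (x ≤ s' ∧ Wst e s' x) ∧
(∀ s'' < s', ¬ F e s'') ∧ ∀ x' < x, ¬ (e < Nat.sqrt x' ∧ Wst e s' x')` (all quantifiers bounded: decidable; monotone in `s`
clear). Every `e` contributes at most one `x` (the least one at the first stage with `F e`). So among the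
`2 r + 1` numbers `x` with `sqrt x = r` at most `r` are in the set (each from one `e < r`): there is one outside.
An infinite r.e. set is `We e` for some `e` (`We_surj`) and has an element `x` with `sqrt x > e`; at a large stage `s`,
`x ≤ s`, `Wst e s x`, so `F e s`; at the first such stage the least such `x'` is put into the set, and
`x' ∈ We e`. -/
def SMB_stmt : Prop := ∃ Nt : ℕ → ℕ → Prop, (ComputablePred fun x : ℕ × ℕ => Nt x.1 x.2) ∧
  (∀ z s s', s ≤ s' → Nt z s → Nt z s') ∧
  (∀ r, ∃ j, Nat.sqrt j = r ∧ ¬ ∃ s, Nt j s) ∧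
  ∀ W : ℕ → Prop, REPred W → {z | W z}.Infinite → ∃ z, W z ∧ ∃ s, Nt z s

/-- the enumeration of the complement after the actions `H` (last one first); an action `(e, d)` moves the positions
`≥ e` by `d` -/
def mv : List (ℕ × ℕ) → ℕ → ℕ
  | [], x => x
  | p :: H, x => mv H (if x < p.1 then x else x + p.2)

/-- the `e`-state of `x` at stage `s` -/
def est (e x s : ℕ) : ℕ := bv (fun b => Wst b s x) (e + 1)

/-- the position `e + d + 1` has a greater `e`-state than the position `e` -/
def mq (s : ℕ) (H : List (ℕ × ℕ)) (e d : ℕ) : Prop :=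
  e + d + 1 ≤ s ∧ est e (mv H e) s < est e (mv H (e + d + 1)) s

/-- the action at stage `s` -/
def mact (s : ℕ) (H : List (ℕ × ℕ)) : ℕ × ℕ :=
  if ∃ e d, mq s H e d then
    (lst fun e => ∃ d, mq s H e d, (lst fun d => mq s H (lst fun e => ∃ d, mq s H e d) d) + 1)
  else (0, 0)

/-- the list of the actions before stage `s` -/
def mH : ℕ → List (ℕ × ℕ)
  | 0 => []
  | s + 1 => mact s (mH s) :: mH s

/-- the `x`-th element of the complement at stage `s` -/
def mm (s x : ℕ) : ℕ := mv (mH s) x

/-- ROW MXA (short). Basic facts.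
PROOF. `mv H` is strictly increasing (induction on `H`: `x ↦ if x < e then x else x + d` is). `mm (s + 1) x = mm s (x or x + d)`.
If there is no action, `mact = (0, 0)` and `mm (s + 1) = mm s`. If there is one, `(e, d + 1)` with `mq s H e d` (`lst_spec`)
and `e` least; `mm (s + 1) e = mm s (e + d + 1)`. -/
def MXA_stmt : Prop := (∀ s, StrictMono (mm s)) ∧ (∀ s x, mm s x ≤ mm (s + 1) x) ∧
  (∀ s, Set.range (mm (s + 1)) ⊆ Set.range (mm s)) ∧
  ∀ s, (∀ x, mm (s + 1) x = mm s x) ∧ (∀ e i, e < i → i ≤ s → est e (mm s i) s ≤ est e (mm s e) s) ∨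
    ∃ e, (∀ x < e, mm (s + 1) x = mm s x) ∧ est e (mm s e) s < est e (mm (s + 1) e) s ∧
      (∀ e' i, e' < e → e' < i → i ≤ s → est e' (mm s i) s ≤ est e' (mm s e') s) ∧ mm s e < mm (s + 1) e

/-- ROW MXB (medium). Every position converges.
PROOF. By induction on `e` (all smaller positions are constant after `s0`). After `s0` an action never has a position `e' < e`
(it would change `mm · e'`, MXA). So `mm · e` changes only by actions at the position `e`, and then
`est e (mm (s + 1) e) (s + 1) ≥ est e (mm (s + 1) e) s > est e (mm s e) s` (`est` is monotone in the stage: `Wst_mono`, `bv` is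
monotone); if it does not change, `est e (mm s e) s` does not decrease. `est e .. < 2^(e + 1)`. So finitely many changes. -/
def MXB_stmt : Prop := ∀ e, ∃ v, Lg fun s => mm s e = v

/-- ROW MXC (medium). The complement of the maximal set is cohesive.
PROOF. Let `a : ℕ → ℕ` be the limit (MXB), strictly increasing. Claim for every `b`: there is `v` with
`bv (fun i => We i (a x)) b = v` for all large `x`. Induction on `b`; step: suppose `v` for `x ≥ x0` and infinitely many `x` with
digit `b` equal to `1` and infinitely many with digit `0`. Take `y ≥ x0, b` with digit `0` and `y' > y` with digit `1`. Let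
`s ≥ y'` be a stage after which `mm · x = a x` for `x ≤ y'` and at which `Wst i s (a x) ↔ We i (a x)` for `i ≤ b`,
`x ∈ {y, y'}`. The first `b` digits of `est y (a y) s` and `est y (a y') s` agree, the digit number `b` is `0`, `1`:
so `est y (mm s y) s < est y (mm s y') s` (`y ≥ b`). By MXA there is an action at stage `s` with a position `≤ y`, which
changes `mm · e` for some `e ≤ y`: contradiction. So the digit `b` is eventually constant. -/
def MXC_stmt : Prop := ∀ a : ℕ → ℕ, (∀ e, Lg fun s => mm s e = a e) → ∀ b,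
  (Lg fun x => We b (a x)) ∨ Lg fun x => ¬ We b (a x)

/-- ROW MXD (medium). `mm` is computable.
PROOF. `mv` is computable in `(H, x)` (fold over the list: `Primrec.list_foldl` / `Computable.list_foldl`, or recursion over the
reversed list), `est` is computable (`bv` by `nat_rec`, `Wst_computable`), `mq` is decidable, `mq s H e d` implies `e, d ≤ s`, so
`∃ e d` and the two `lst` are bounded by `s` (`cp_lst`, `cp_bex`); `mact` computable (`cp_ite`); `mH` by `Computable.nat_rec`. -/
def MXD_stmt : Prop := Computable fun x : ℕ × ℕ => mm x.1 x.2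

/-- ROW MXE (short-medium). There is a maximal set.
PROOF. `E = {z | ∃ s, ∀ x ≤ z, mm s x ≠ z}` is r.e. (MXD, `cp_ball`, `re_ex`). As `x ≤ mm s x` (strictly increasing) and the ranges
decrease (MXA), `z ∉ E` iff `z` is in the range of all `mm s`; this holds iff `z = a x` for some `x`
(if `z = mm s (x s)` with `x s ≤ z`, some value `x` occurs for infinitely many `s`, so `z = a x`; conversely `a x` is in the range
of `mm s` for all large `s`, hence for all `s`). So the complement is infinite, and for a computable `P`, `P = We b`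
for some `b`, MXC gives the two alternatives. -/
def MXE_stmt : Prop := ∃ E : Set ℕ, (REPred fun z => z ∈ E) ∧ {z | z ∉ E}.Infinite ∧
  ∀ P : ℕ → Prop, ComputablePred P → {z | z ∉ E ∧ ¬ P z}.Finite ∨ {z | z ∉ E ∧ P z}.Finite

/-- ROW NCE (short-medium). It is not computable.
PROOF. If `E` is computable, `P z := z ∉ E ∧ (the number of elements of the complement below z is even)` is computable
(`∀ x < z` counting by `nat_rec`), and both `P` and its negation hold infinitely often on the infinite complement. -/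
def NCE_stmt : Prop := ∀ E : Set ℕ, {z | z ∉ E}.Infinite →
  (∀ P : ℕ → Prop, ComputablePred P → {z | z ∉ E ∧ ¬ P z}.Finite ∨ {z | z ∉ E ∧ P z}.Finite) →
  ¬ ComputablePred fun z => z ∈ E

/-- ROW ENU (short-medium). An infinite r.e. set is enumerated by a computable injective function.
PROOF. `E z ↔ ∃ n, T (z, n)` with a decidable `T` (`PF.re_iff`). Given the list `H` of the values already used, let `u` be the
least number with `T (u.unpair.1, u.unpair.2)` and `u.unpair.1 ∉ H` (exists since `E` is infinite; `Partrec.rfind`, total),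
the next value is `u.unpair.1`. `H` by `Computable.nat_rec`. Injective: clear. Every `z ∈ E` is a value: let
`T (z, n)`, `u = (z, n)`; the numbers found are different, so at some step the number found is `> u`, and then `z ∈ H`. -/
def ENU_stmt : Prop := ∀ E : Set ℕ, (REPred fun z => z ∈ E) → E.Infinite →
  ∃ f : ℕ → ℕ, Computable f ∧ Function.Injective f ∧ Set.range f = E

/-- ROW CTX (short-medium). The data exist.
PROOF. `E` from MXE, not computable (NCE), so infinite (a finite set is computable), `f` from ENU, `Nt` from SMB. -/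
def CTX_stmt : Prop := ∀ (m : ℕ) (T : List (ℕ × ℕ × ℕ)), 0 < m → T ≠ [] →
  (∀ a ∈ T, a.2.1 < m ∧ a.2.2 < m) → ∃ X : Cx, X.Ok ∧ X.m = m ∧ X.T = T

/-! ## The instance -/

/-- ROW CNC (short-medium). The meaning of the conditions.
PROOF. `Ps i k z s → Ps i k z s'` for `s ≤ s'` (`Wst_mono`). `z < cnD i k s` iff for all `z' ≤ z`: `z' < s` and `Ps i k z' s`
(`lst_not`, `lst_spec`: `s ≤ s` is a solution). So `C i k ↔ ∀ z, ∃ s, Ps i k z s`. Unfold `pT, pS, pI, pN` (`Nat.unpair_pair`). -/
def CNC_stmt : Prop := ∀ (X : Cx) (k : ℕ),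
  (∀ a, X.B.C (pT a) k ↔ ∀ z, We a (Nat.pair k z) ∨ z ∈ X.E) ∧
  (∀ a a', X.B.C (pS a a') k ↔ ∀ t, We a (Nat.pair k (X.f t)) ∨ We a' (Nat.pair k (X.f t))) ∧
  (∀ b j y, X.B.C (pI b j y) k ↔ ∀ z, We b (Nat.pair j (Nat.pair y z))) ∧
  ∀ j, X.B.C (pN j) k ↔ j ∉ X.N

/-- ROW GDD (medium). The hypotheses on the blocks hold.
PROOF. `mono`: if `z < cnD i k s` then `z < cnD i k (s + 1)` (as in CNC). `dc2`: clear. `dcp`: for `i.unpair.1 = 1`, put
`P u := Wst a u x`, `P' u := Wst a' u x`, `x = (k, f t)`. The first condition `∃ u ≤ s, P u ∧ ∀ u' < u, ¬ P' u'` persists; if it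
fails at `s` and `∃ u0 ≤ s, P' u0`, then it fails at `s + 1` too (a witness `u = s + 1` would need `¬ P' u0`), and the
second condition persists. `h2`: type `1`: `C` says that for all `t`, `Wst a s x` or `Wst a' s x` for some `s` (as in CNC, also for
conditions `i` with `i.unpair.1 = 1` not written as `pS`: `pS` of the unpaired numbers); take the least `u` with
`Wst a u x ∨ Wst a' u x`: the value is not `0` at `s = u`; other types: the value is `1`. `h1`: suppose that for all
`t ≥ t0` some `i ∈ F` has `¬ prD i k t`, i.e. `i = pT a`, `¬ Wst a t (k, f t)`. Claim: `z ∉ E ↔ ∃ s ≥ t0, (∀ pT a ∈ F,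
Wst a s (k, z)) ∧ ∀ t ≤ s, f t ≠ z`. (→) `C (pT a) k` and `z ∉ E` give `We a (k, z)`; take `s` large. (←) if `z = f t`
then `t > s ≥ t0` and `Wst a t (k, f t)` for all `pT a ∈ F`, contradiction. So the complement of `E` is r.e.; `E = range f` is
r.e., so `E` is computable (`ComputablePred.computable_iff_re_compl_re`), contradiction to `Ok.ne`. -/
def GDD_stmt : Prop := ∀ X : Cx, X.Ok → ∀ k, X.B.Gd k

/-- ROW CM1 (medium). `cn`, `pr`, `dc` are computable.
PROOF. `Ps` is decidable (`Wst_computable`, `Ok.nc`, bounded quantifier `t < s`, `Nat.unpair`); `cnD` by `cp_lst` with the bound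
`s`; `prD`: `cp_or` of `¬ (i.unpair.1 = 0)` and `Wst`; `dcD`: `cp_ite`, `cp_bex`, `cp_ball`. -/
def CM1_stmt : Prop := ∀ X : Cx, X.Ok → (Computable fun x : ℕ × ℕ × ℕ => X.cnD x.1 x.2.1 x.2.2) ∧
  (ComputablePred fun x : ℕ × ℕ × ℕ => X.prD x.1 x.2.1 x.2.2) ∧
  Computable fun x : (ℕ × ℕ) × ℕ × ℕ => X.dcD x.1.1 x.1.2 x.2.1 x.2.2

/-- ROW CM2 (medium). `al` is computable.
PROOF. `(g, k) ↦ typ X.T (fun i => ent g i ≠ 0) k` is computable: `∃ s ≤ k, lq .. s = k` is decidable by LQM, `cp_bex`; the `lst` in
the first case is `≤ k`; write `typ` with the bounded `lst (fun s => lq .. s = k ∧ s ≤ k)` (equal in the first case), `cp_lst`;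
`X.T[· % X.T.length]?` is a primitive recursive function (`Primrec.list_getElem?`, constant list), `cp_ite` with
`none`. `alT X.m o l c` is decidable in `(o, l, c)`: for `o = none` and `o = some a` separately (e.g.
`(∃ a, o = some a ∧ l = a.2.1) ↔ o.map (·.2.1) = some l`, and `(∃ a, o = some a ∧ l < a.2.1) ↔ l < (o.map (·.2.1)).getD 0`,
`(∀ a, o = some a → c ≠ 4 + a.1) ↔ ¬ (o.map (4 + ·.1) = some c)`; `Primrec.option_map`, `Primrec.eq`). -/
def CM2_stmt : Prop := ∀ X : Cx, X.Ok →
  ComputablePred fun x : (ℕ × List ℕ) × ℕ × ℕ => X.alD x.1.1 x.1.2 x.2.1 x.2.2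

/-- ROW TTN (short). The true assignment.
PROOF. `X.TT i = X.B.C i 0`; CNC for `k` and for `0`: the conditions `pI`, `pN` do not depend on `k`. Infinitely many `z` are
outside `X.N` by `Ok.nb`. -/
def TTN_stmt : Prop := ∀ X : Cx, X.Ok → (∀ z0, ∃ z, z0 ≤ z ∧ X.TT (pN z)) ∧
  (∀ z, X.TT (pN z) ↔ z ∉ X.N) ∧ (∀ k z, X.B.C (pN z) k ↔ X.TT (pN z)) ∧
  (∀ k b j y, X.B.C (pI b j y) k ↔ X.TT (pI b j y)) ∧
  ∀ b j, UI X.TT b j ↔ ∃ y, ∀ y', We b (Nat.pair j (Nat.pair y y'))

/-- ROW TYL (short-medium). Types.
PROOF. `X.ls` is strictly increasing with values outside `X.N` (LQS, TTN), so `s ≤ X.ls s` and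
`lst (fun s' => X.ls s' = X.ls s) = s`. So `X.ty (X.ls s) = X.T[s % X.T.length]?`, which is `some`, an element of `X.T`, and every
`a ∈ X.T` is `X.T[i]` for some `i`, take `s = i + n * X.T.length`. -/
def TYL_stmt : Prop := ∀ X : Cx, X.Ok → (StrictMono X.ls) ∧ (∀ s, X.ls s ∉ X.N) ∧
  (∀ k a, X.ty k = some a → a ∈ X.T ∧ ∃ s, X.ls s = k) ∧
  ∀ a ∈ X.T, ∀ s0, ∃ s, s0 ≤ s ∧ X.ty (X.ls s) = some a

/-- ROW CAL (short-medium). Long right strings give the true permissions.
PROOF. `n0` such that `lq (fun i => i < n ∧ TT i) s = lq TT s` for all `s ≤ k`, `n ≥ n0` (LQC, TTN). Let `g` be right of length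
`n ≥ n0`. `ent g i ≠ 0 ↔ i < n ∧ X.B.C i k`; for `i = pI ..`, `pN ..` this is `i < n ∧ TT i` (TTN). So by LQI
`lq (fun i => ent g i ≠ 0) s = lq TT s` for `s ≤ k`, and `typ` depends only on these values (if `∃ s ≤ k, lq s = k`, the
`lst` is `≤ k` and the same). -/
def CAL_stmt : Prop := ∀ X : Cx, X.Ok → ∀ k, ∃ n0, ∀ g l, X.B.RS k g l → n0 ≤ g.length →
  ∀ l' c, X.alD k g l' c ↔ alT X.m (X.ty k) l' c

/-- ROW GAM (medium). The limit values are constant on the cohesive set.
PROOF. For `g0` of length `i + 1` with entries `≤ 2` (finitely many) let `b` be the index of S3U: by TTN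
`(∃ g, RS k g l ∧ g0 <+: g) ↔ UI TT b k`. By COH (for `TT`, TTN) for all large `s` this holds for `k = ls s`, or for all large
`s` it fails. So there is `s0` such that for `s, s' ≥ s0` the blocks `ls s`, `ls s'` have the same attained segments of length
`i + 1` (segments with an entry `> 2` are never attained, RSM). By VLX the limit values at `ls s` and `ls s0` agree, and
`lv (ls s0) l i v` holds for `v = 1` or `v = 2`. -/
def GAM_stmt : Prop := ∀ X : Cx, X.Ok → ∀ l < X.m, ∀ i, (∀ k, X.B.C i k) → X.bet i l 1 ∨ X.bet i l 2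

end

end S5
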