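import Pool.Agent.helper96.S5.BasicV

/-!
# MP_0b485e_lc, level 5, Spec V: the sets in `E*` (rows of block V)

`X : Cx` with `X.Ok`, parameters `p` with `X.Par p` (`p 0 = A ∪ Λ`, `p 1 = A`, `p 2 = D`, `p 3 = Λ`, `p 4 = Λ'`,
`p (5 + c)` = the elements of colour `c`). Proved in `BasicV.lean`: `mk_le mk_inf mk_sup mk_surj mk_eq' mk_bot mk_top mk_set`,
`jm_iff yy_iff ks_iff dm_iff` (the formulas for classes of sets), `th_adm` (tickets are admissible), `fin_cp`,
`re_fin_union`, `re_fin_diff`, `blocks_finite`. Write `(k, z)` for `Nat.pair k z`, `S_k` for the block, `=*` for equality up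
to finite sets. For `x ∈ X.bk k j`: `x = (k, f t)` and `asg k (s, t) = j + 1` for some `s`; by DIS `B.pA k (s, t) _ j` holds, so
with `g = (pcc j).1`: `fit`, i.e. `vl k (s, t) i = ent g i` for `i < g.length`, and `vl ≠ 0` implies that the entry of the
ticket is not `0` and that `vl = dc i k t s`. Two elements `(k, f t) = (k', f t')` have `k = k'`, `t = t'` (`Ok.fi`), so by DIS
every number is in at most one set `X.bk k j`.
-/

set_option autoImplicit false

namespace S5

open PF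

noncomputable section

open Classical

/-- ROW CPX (short). The construction is computable.
PROOF. CM1, CM2 are the four fields of `X.B.Cp` (`X.B` unfolds), `X.B.lam = X.m`. -/
def CPX_stmt : Prop := ∀ X : Cx, X.Ok → X.B.Cp ∧ 0 < X.B.lam

/-- ROW SRE (medium). The sets are r.e.
PROOF. Each membership is `∃` (finitely many numbers) of a decidable condition: e.g. `x ∈ X.sD` iff there are `k, j, t, s, u` with
`x = (k, f t)`, `asg k (s, t) = j + 1` and (`Nt j u` or `(s, t) ≤ u ∧ dmp k u j`). CAS, CTH (`th`) with CPX, `Ok.fc`, `Ok.nc`,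
`re_ex`, `ComputablePred.to_re`, `cp_eq`, `cp_and`, `cp_or`. -/
def SRE_stmt : Prop := ∀ X : Cx, X.Ok → (REPred fun x => x ∈ X.sA) ∧ (REPred fun x => x ∈ X.sL) ∧
  (REPred fun x => x ∈ X.sA ∪ X.sL) ∧ (REPred fun x => x ∈ X.sD) ∧ (REPred fun x => x ∈ X.sM) ∧
  (∀ c, REPred fun x => x ∈ X.sC c) ∧ (∀ l, REPred fun x => x ∈ X.sB l) ∧
  (∀ l, REPred fun x => x ∈ X.sB' l) ∧ REPred fun y : (ℕ × ℕ) × ℕ => y.2 ∈ X.bk y.1.1 y.1.2

/-- ROW PAX (short). The parameters exist.
PROOF. `p i` by cases `0, 1, 2, 3, 4, c + 5`, SRE. -/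
def PAX_stmt : Prop := ∀ X : Cx, X.Ok → ∃ p : ℕ → EStar, X.Par p

/-- ROW JFN (short-medium). Sets in `Jm` meet only finitely many blocks outside `Λ`.
PROOF. `jm_iff`: `R1` with `R1 ∩ sL`, `R \ (R1 ∪ sL)` finite. `W k := ∃ z, (k, z) ∈ R1` is r.e. (`re_ex`, `re_comp`). `{k | W k, k ∈ N}` is
finite (each such `k` is the first coordinate of an element of the finite set `R1 ∩ sL`). If `{k | W k}` were infinite, then
so would be the r.e. set `{k | W k} \ {k | W k, k ∈ N}` (`re_fin_diff`), which is disjoint from `N`, against `Ok.ns`. So `W` is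
bounded; for large `k ∉ N` an element `(k, z) ∈ R` is not in `sL`, not in `R1`, so it is in a finite set
(`blocks_finite`). -/
def JFN_stmt : Prop := ∀ (X : Cx) (p : ℕ → EStar), X.Ok → X.Par p → ∀ R : CES, Jm p (EStar.mk R) →
  ∃ K, ∀ k, K ≤ k → k ∉ X.N → ∀ z, Nat.pair k z ∉ R.1

/-- ROW JCP (short). Sets in `Jm` are computable.
PROOF. `jm_iff`: the complement of `R` is `(R' \ (R ∩ R')) ∪ {x | x ∉ R ∧ x ∉ R'}` with finite `R ∩ R'` and finite second set, so it
is r.e. (`re_fin_diff`, `re_fin_union`); `ComputablePred.computable_iff_re_compl_re`. -/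
def JCP_stmt : Prop := ∀ (X : Cx) (p : ℕ → EStar), X.Par p → ∀ R : CES, Jm p (EStar.mk R) →
  ComputablePred fun x => x ∈ R.1

/-- ROW JSK (short). Finite unions of blocks outside `Λ` are in `Jm`.
PROOF. The set is computable (`fin_cp`, `cp_comp`), `R'` = its complement, `R1 = R`; `R ∩ sL = ∅` since the `k ∈ F` are not in
`N`. -/
def JSK_stmt : Prop := ∀ (X : Cx) (p : ℕ → EStar), X.Par p → ∀ F : Set ℕ, F.Finite → (∀ k ∈ F, k ∉ X.N) →
  ∃ h : REPred (fun x => x ∈ {x : ℕ | x.unpair.1 ∈ F}), Jm p (EStar.mk ⟨{x : ℕ | x.unpair.1 ∈ F}, h⟩)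

/-- ROW LIV (short-medium). Sets in `Jm` which are not below `A ∪ Λ` contain almost the whole complement of `E` in some
block outside `Λ`.
PROOF. `R \ (sA ∪ sL)` is infinite; its elements are `(k, z)` with `z ∉ E`, `k ∉ N`; by JFN `k < K`. So for some `k ∉ N` the
set `{z | z ∉ E ∧ (k, z) ∈ R}` is infinite. `z ↦ (k, z) ∈ R` is computable (JCP), so by `Ok.rm` the set
`{z | z ∉ E ∧ (k, z) ∉ R}` is finite. -/
def LIV_stmt : Prop := ∀ (X : Cx) (p : ℕ → EStar), X.Ok → X.Par p → ∀ R : CES, Jm p (EStar.mk R) →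
  ¬ EStar.mk R ≤ p 0 → ∃ k, k ∉ X.N ∧ {z | z ∉ X.E ∧ Nat.pair k z ∉ R.1}.Finite

/-- ROW GLU (short-medium). Gluing.
PROOF. Let `F` be the finite set of the hypothesis, `a` with `We a = R ∪ {(k, z) | z ∈ F}` (`We_surj`, `re_fin_union`). By CNC
`C (pT a) k` holds. `n0 = pT a + 1`. Let `x = (k, f t) ∈ bk k j`. By `RS`, `ent g (pT a) ≠ 0`, so `vl ≠ 0`, so the ticket of `t`
has the entry `pT a` different from `0` (and `pT a < g.length ≤` length of the ticket), so by `th_adm`
`prD (pT a) k t`, i.e. `Wst a t (k, f t)`, `x ∈ We a`; as `f t ∈ E`, `f t ∉ F`, so `x ∈ R`. -/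
def GLU_stmt : Prop := ∀ X : Cx, X.Ok → ∀ (R : CES) (k : ℕ), {z | z ∉ X.E ∧ Nat.pair k z ∉ R.1}.Finite →
  ∃ n0, ∀ j, n0 ≤ (pcc j).1.length → X.B.RS k (pcc j).1 (pcc j).2.1 → X.bk k j ⊆ R.1

/-- ROW RPX (short-medium). Elements of the domain are represented by conditions.
PROOF. `dm_iff`: `F = sA \ (x ∪ x')` is finite. `a, a'` with `We a = x ∪ F`, `We a' = x'`. `(k, f t) ∈ sA`, so it is in
`We a ∪ We a'`. Second part: CNC for `pS a a'`. -/
def RPX_stmt : Prop := ∀ (X : Cx) (p : ℕ → EStar), X.Par p → ∀ x x' : CES,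
  (Dm p (EStar.mk x) (EStar.mk x') → ∃ i, X.rep x x' i) ∧ ∀ i, X.rep x x' i → ∀ k, X.B.C i k

/-- ROW BIT (short-medium). The value of the representing condition decides the piece.
PROOF. `i = pS a a'`. For `(k, f t) ∈ bk k j`: `vl k (s, t) i = ent g i ≠ 0`, so `dcD i k t s = ent g i`. If it is `2`, then
`Wst a u (k, f t)` for some `u`, so `bk k j ⊆ We a =* x`; if it is `1`, then `bk k j ⊆ We a' =* x'`. -/
def BIT_stmt : Prop := ∀ X : Cx, X.Ok → ∀ (x x' : CES) (i : ℕ), X.rep x x' i → ∀ k j,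
  i < (pcc j).1.length → (ent (pcc j).1 i = 2 → (X.bk k j \ x.1).Finite) ∧
    (ent (pcc j).1 i = 1 → (X.bk k j \ x'.1).Finite)

/-- ROW LBV (medium). Values for the label sets.
PROOF. `i = pS a a'`, `C i k` (RPX), so `ent g i ≠ 0`. Infinitely many `u = (s, t)` fit `g, l`; each `t` is processed only once
(`prc (s, t)` determines `s`), so infinitely many `t` with label `l` occur, and the numbers `(k, f t)` are different. All
but finitely many of them are outside the finite sets `symmDiff x (We a)`, `symmDiff x' (We a')`; take one such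
`u`. `vl k u i = ent g i ≠ 0`, so `ent g i = dcD i k t s ∈ {1, 2}`. First case: `(k, f t) ∉ x'`, so not in `We a'`, so the value is
not `1` (it would give `Wst a' u' ..`): it is `2`. Second case: `(k, f t) ∉ x`, so not in `We a`: the value is not `2`. -/
def LBV_stmt : Prop := ∀ X : Cx, X.Ok → ∀ (x x' : CES) (i : ℕ), X.rep x x' i → ∀ k g l, X.B.RS k g l →
  i < g.length → ((∀ t, (X.B.th k t).2 = l → Nat.pair k (X.f t) ∉ x'.1) → ent g i = 2) ∧
    ((∀ t, (X.B.th k t).2 = l → Nat.pair k (X.f t) ∉ x.1) → ent g i = 1)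

/-- ROW PXL (short-medium). The meaning of `pix`.
PROOF. `pix i ≤ m - 1` since `m - 1` satisfies `l + 1 = m`. By GAM, for each `l < m`, `bet i l 1` or `bet i l 2`; take `s0` for
all `l < m` (finitely many). For `l < pix i` (`lst_not`): not `bet i l 2`, so `bet i l 1`. For `l = pix i`, `l + 1 < m`: by
`lst_spec`, `bet i l 2`. -/
def PXL_stmt : Prop := ∀ X : Cx, X.Ok → ∀ i, (∀ k, X.B.C i k) → X.pix i < X.m ∧ Lg fun s => ∀ l < X.m,
  (X.B.lv (X.ls s) l i 1 ∨ X.B.lv (X.ls s) l i 2) ∧ (l < X.pix i → X.B.lv (X.ls s) l i 1) ∧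
    (l = X.pix i → l + 1 < X.m → X.B.lv (X.ls s) l i 2)

/-- ROW SRJ (medium). Surjectivity.
PROOF. Case `i + 1 < m`: `x = sB i`, `x' = sB' i` (SRE), disjoint (`Ok.fi`), with union `sA`: `dm_iff`. Let `rep x x' i0`. By LBV, for all
`k`, `l < m`: `lv k l i0 2` if `l = i` (an element with label `i` is not in `sB' i`), `lv k l i0 1` if `l ≠ i` (not in `sB i`); so
`bet i0 i 2`, and for `l < i` not `bet i0 l 2` (uniqueness of `lv`, VLX with GDD). `lst_unique`: `pix i0 = i`. Case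
`i + 1 = m`: `x = ∅`, `x' = sA`; `lv k l i0 1` for all `l < m`, so `pix i0 = m - 1` (`l + 1 = m` is the only solution). -/
def SRJ_stmt : Prop := ∀ (X : Cx) (p : ℕ → EStar), X.Ok → X.Par p → ∀ i < X.m, ∃ x x' : CES,
  Dm p (EStar.mk x) (EStar.mk x') ∧ ∀ i0, X.rep x x' i0 → X.pix i0 = i

/-- ROW NRT (short-medium). Pieces with a wrong string.
PROOF. DMW with GDD. If `j + 1` is not chosen for `u ≥ u0`, then `bk k j` is contained in the image of the finite set of the
`u < u0` under `u ↦ (k, f u.unpair.2)`. If there are infinitely many dump events, then every element of `bk k j` is in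
`sD` (`ind`). -/
def NRT_stmt : Prop := ∀ X : Cx, X.Ok → ∀ k j, ¬ X.B.RS k (pcc j).1 (pcc j).2.1 → (X.bk k j \ X.sD).Finite

/-- ROW PCF (short-medium). Permitted right pieces are infinite.
PROOF. GDD. `u0` from DMW: no dump event for `u ≥ u0`. By FED infinitely many `u = (s, t) ≥ u0` with `asg k u = j + 1`; their
`t` are different (DIS), so infinitely many `x = (k, f t) ∈ bk k j`. Such an `x` is not in `sD`: let `x = (k', f t')` with `k', j'` as
in the definition; `k' = k`, `t' = t`, `j' = j` (DIS: `inp k j' t` or `ind` gives `asg k (s', t) = j' + 1`, so `s' = s`,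
`j' = j`); `j ∉ N`; and a dump event for `j` at some `u ≥ (s, t) ≥ u0` does not exist. -/
def PCF_stmt : Prop := ∀ X : Cx, X.Ok → ∀ k j, X.B.RS k (pcc j).1 (pcc j).2.1 →
  X.alD k (pcc j).1 (pcc j).2.1 (pcc j).2.2 → j ∉ X.N → (X.bk k j \ X.sD).Infinite

/-- ROW YFN (short-medium). Sets in `Yy` meet only finitely many pieces outside `Λ'`.
PROOF. `yy_iff`: `Y1 ∩ sM`, `Y \ (Y1 ∪ sM)` finite. `W j := ∃ k x, x ∈ bk k j ∧ x ∈ Y1` is r.e. (SRE, `re_ex`). `{j | W j, j ∈ N}` is finite: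
such a `j` has an element of `bk k j ∩ Y1 ⊆ sM ∩ Y1`, a finite set, and every number is in at most one piece (DIS). As in
JFN (`Ok.ns`, `re_fin_diff`) `W` is bounded. For `j ∉ N`, an element of `Y ∩ bk k j` is not in `sM` (it is in one piece
only), so it is in `Y1`, or in the finite set `Y \ (Y1 ∪ sM)`, whose elements are in finitely many pieces. -/
def YFN_stmt : Prop := ∀ (X : Cx) (p : ℕ → EStar), X.Ok → X.Par p → ∀ Y : CES, Yy p (EStar.mk Y) →
  ∃ j0, ∀ j, j0 ≤ j → j ∉ X.N → ∀ k, ∀ x ∈ X.bk k j, x ∉ Y.1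

/-- ROW YBK (short). Finite unions of pieces outside `Λ'` are in `Yy`.
PROOF. R.e.: SRE (`re_comp`, bounded `∃` or induction on the finite set). `yy_iff` with `Y1 = Y`: `Y ∩ sM = ∅` since every number is in
at most one piece (DIS, `Ok.fi`). -/
def YBK_stmt : Prop := ∀ (X : Cx) (p : ℕ → EStar), X.Ok → X.Par p → ∀ (k : ℕ) (F : Set ℕ), F.Finite →
  (∀ j ∈ F, j ∉ X.N) → ∃ h : REPred (fun x => x ∈ {x : ℕ | ∃ j ∈ F, x ∈ X.bk k j}),
    Yy p (EStar.mk ⟨{x : ℕ | ∃ j ∈ F, x ∈ X.bk k j}, h⟩)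

/-- ROW KSP (short-medium). Small sets are small in almost every piece.
PROOF. `ks_iff`: `Y`. YFN for `Y`: `j0`. For `j ≥ j0`: if `j ∈ N`, then `bk k j ⊆ sD`. If `j ∉ N`: `Y' = bk k j` (YBK with
`F = {j}`) satisfies `Y' ∩ Y = ∅`, so `(Y' ∩ w) \ sD` is finite. -/
def KSP_stmt : Prop := ∀ (X : Cx) (p : ℕ → EStar), X.Ok → X.Par p → ∀ w : CES, Ks p (EStar.mk w) →
  ∀ k, ∃ j0, ∀ j, j0 ≤ j → ((w.1 ∩ X.bk k j) \ X.sD).Finite

/-- ROW KSB (short-medium). The converse in one block.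
PROOF. `F = {j | j < j0 ∧ j ∉ N}`, `Y` = the union of the `bk k j`, `j ∈ F` (YBK). Let `Y'` be in `Yy` with `(Y' ∩ Y) \ sD` finite and
`j1` from YFN for `Y'`. `(Y' ∩ w) \ sD` is contained in the union of the sets `(Y' ∩ w ∩ bk k j) \ sD`: empty for `j ∈ N`
(`bk k j ⊆ sD`) and for `j ≥ j1`, `j ∉ N`; for `j ∈ F` contained in `(Y' ∩ Y) \ sD`; for `j0 ≤ j < j1` finite by
hypothesis. `ks_iff`. -/
def KSB_stmt : Prop := ∀ (X : Cx) (p : ℕ → EStar), X.Ok → X.Par p → ∀ (w : CES) (k : ℕ),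
  (∀ x ∈ w.1, ∃ j, x ∈ X.bk k j) → (∃ j0, ∀ j, j0 ≤ j → ((w.1 ∩ X.bk k j) \ X.sD).Finite) →
  Ks p (EStar.mk w)

/-- ROW RSF (short-medium). Finitely many right pieces of bounded length.
PROOF. The labels are `< m` (RSM, GDD), and for each length `< n` and label there is at most one right string (RSU). So the
triples `pcc j = (g, l, c)` of these `j` form a finite set, and `Nat.sqrt j = encode (pcc j)` (`pcc_enc`) is bounded, so
`j` is bounded (`Nat.sqrt_lt'`, `Nat.lt_succ_sqrt`). -/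
def RSF_stmt : Prop := ∀ X : Cx, X.Ok → ∀ k n c,
  {j | (pcc j).1.length < n ∧ (pcc j).2.2 = c ∧ X.B.RS k (pcc j).1 (pcc j).2.1}.Finite

/-- ROW LVL (medium). Sets which contain the permitted right pieces of a class are not small.
PROOF. Suppose `Ks p (mk w)`; `j0` from KSP. Let `n1` be the bound of CAL. For every `n` take the right string `g n` of
length `n` for `l` (RSX, GDD); the codes of `(g n, l, c)` are different, so for some `n ≥ n0, n1` the code is `≥ j0`. By
`Ok.nb` there is `j ∉ N` with `Nat.sqrt j` = this code, so `pcc j = (g n, l, c)` (`pcc_surj`), `j ≥ Nat.sqrt j ≥ j0`. By CAL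
`alD` holds, so by PCF `bk k j \ sD` is infinite. But it is contained in
`(bk k j \ (w ∪ sD)) ∪ ((w ∩ bk k j) \ sD)`, both finite. -/
def LVL_stmt : Prop := ∀ (X : Cx) (p : ℕ → EStar), X.Ok → X.Par p → ∀ k l c, l < X.m →
  alT X.m (X.ty k) l c → ∀ w : CES, (∃ n0, ∀ j, n0 ≤ (pcc j).1.length → (pcc j).2 = (l, c) →
    X.B.RS k (pcc j).1 l → (X.bk k j \ (w.1 ∪ X.sD)).Finite) → ¬ Ks p (EStar.mk w)

/-- ROW KDD (medium). Sets of one colour in one block which are small in the permitted right pieces are small.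
PROOF. KSB. Let `n1` be the maximum of `n0` and the bound of CAL; `j0` greater than all elements of the finite set of RSF for
`n1`. Let `j ≥ j0`. If `(pcc j).2.2 ≠ c`, then `w ∩ bk k j = ∅` (an element is in one piece only, DIS, `Ok.fi`). If `RS`
fails: NRT. Otherwise `n1 ≤ (pcc j).1.length`; if `alT` holds: the hypothesis; if not, then `alD` fails by CAL and
`bk k j = ∅` (a chosen piece is a candidate, DIS). -/
def KDD_stmt : Prop := ∀ (X : Cx) (p : ℕ → EStar), X.Ok → X.Par p → ∀ (k c : ℕ) (w : CES),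
  (∀ x ∈ w.1, ∃ j, x ∈ X.bk k j ∧ (pcc j).2.2 = c) →
  (∃ n0, ∀ j, n0 ≤ (pcc j).1.length → (pcc j).2.2 = c → alT X.m (X.ty k) (pcc j).2.1 c →
    X.B.RS k (pcc j).1 (pcc j).2.1 → ((w.1 ∩ X.bk k j) \ X.sD).Finite) → Ks p (EStar.mk w)

/-- ROW EPF (medium). From the formula to the types.
PROOF. `s0` from PXL for `i0` and `j0` (conditions hold in all blocks: RPX). `K0 = ls s0`,
`R = {x | x.unpair.1 ∈ F}`, `F = {k | k ≤ K0 ∧ k ∉ N}` (JSK). `EC` gives `R'` (a class `mk R'`). By LIV there is `k ∉ N` such that almost all `z ∉ E` have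
`(k, z) ∈ R'`; `k > K0`, since otherwise `R ∩ R'` would be infinite (`Ok.ce`). By GLU `bk k j ⊆ R'` for all right pieces of
large length. (1) `ty k` is `some (q, a, b)`: otherwise (`none`, or `some a'` with `a'.1 ≠ q`) `alT m (ty k) (m - 1) (4 + q)` holds, and LVL
with `w = sC (4 + q) ∩ R'` contradicts `Ks (p (9 + q) ⊓ R')` (`9 + q = 5 + (4 + q)`; pieces with colour `4 + q` are contained in
`sC (4 + q)`). By TYL `k = ls s`, `(q, a, b) ∈ T`, and `s ≥ s0` (`ls` is strictly increasing). (2) `pix i0 = a`. If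
`pix i0 < a`, let `l = pix i0`: `lv k l i0 2` (`l + 1 < m` as `a < m`, `Ok.Tm`), `alT m (ty k) l 1` holds, and for long right pieces
of class `(l, 1)`: `bk k j \ x` is finite (BIT, value `2`), so LVL with `w = x ∩ sC 1 ∩ R'` contradicts
`Ks (x ⊓ p 6 ⊓ R')`. If `a < pix i0`: `a + 1 < m`, `lv k a i0 1`, `alT m (ty k) a 0` holds, `bk k j \ x'` is finite (BIT, value `1`),
so LVL with `w = x' ∩ sC 0 ∩ R'` contradicts `Ks (x' ⊓ p 5 ⊓ R')`. (3) `pix j0 = b` in the same way with the colours `3`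
and `2` (`p 8`, `p 7`). -/
def EPF_stmt : Prop := ∀ (X : Cx) (p : ℕ → EStar), X.Ok → X.Par p → ∀ (x x' y y' : CES) (i0 j0 q : ℕ),
  X.rep x x' i0 → X.rep y y' j0 →
  EC p (9 + q) (EStar.mk x) (EStar.mk x') (EStar.mk y) (EStar.mk y') →
  (q, X.pix i0, X.pix j0) ∈ X.T

/-- ROW EPB (medium). From the types to the formula.
PROOF. Let `Jm p (mk R)`, `K` from JFN. By TYL there is `s`, large for PXL (for `i0` and `j0`), with `k = ls s ≥ K` and
`ty k = some (q, pix i0, pix j0)`, `k ∉ N`. `R' = S_k` (JSK with `F = {k}`). `R ∩ R' = ∅`. `R' \ (sA ∪ sL)` contains all `(k, z)` with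
`z ∉ E`: infinite (`Ok.ce`). The five sets are small by KDD (they are contained in one block and in one set `sC c`; use
`mk_set` to rewrite the class): colour `4 + q`: `alT m (ty k) l (4 + q)` is false for all `l`. Colour `0`, `w = x' ∩ sC 0 ∩ S_k`:
`alT` means `l = pix i0`, `l + 1 < m`, so `lv k l i0 2` (PXL), so for long right pieces `bk k j \ x` is finite (BIT); as
`(x ∩ x') \ sD` is finite (hypothesis `Dm`, `dm_iff`), `(x' ∩ bk k j) \ sD` is finite. Colour `1`, `w = x ∩ sC 1 ∩ S_k`: `alT` means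
`l < pix i0`, so `lv k l i0 1`, `bk k j \ x'` is finite, so `(x ∩ bk k j) \ sD` is finite. The same for `y`, colours `2, 3`. -/
def EPB_stmt : Prop := ∀ (X : Cx) (p : ℕ → EStar), X.Ok → X.Par p → ∀ (x x' y y' : CES) (i0 j0 q : ℕ),
  Dm p (EStar.mk x) (EStar.mk x') → Dm p (EStar.mk y) (EStar.mk y') →
  X.rep x x' i0 → X.rep y y' j0 → (q, X.pix i0, X.pix j0) ∈ X.T →
  EC p (9 + q) (EStar.mk x) (EStar.mk x') (EStar.mk y) (EStar.mk y')

/-- ROW KEY (medium). The key property of `E*`.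
PROOF. `T` = a list of all `(q, i, j)` with `q < 2 R`, `i, j < m`, such that `ρ (q / 2) i j` holds if `q` is even and fails if `q` is
odd (a filtered list, `Classical`); not empty (`q = 0` or `q = 1`, `i = j = 0`). `X` from CTX, `p` from PAX. For `x` in the domain choose
`A, A'` with `mk A = x.1`, `mk A' = x.2` (`mk_surj`) and `i` with `rep A A' i` (RPX); `π x = pix i < m` (PXL). Surjective: SRJ
gives `B, B'`; for the chosen `A, A', i` of the pair `(mk B, mk B')` we have `rep B B' i` too (`mk_eq`, symmetric differences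
are finite), so `pix i` is the given number. `EC p (9 + q) x y ↔ (q, π x, π y) ∈ T` by EPF and EPB;
`10 + 2 r = 9 + (2 r + 1)`. -/
def KEY_stmt : Prop := KeyP EStar

end

end S5
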